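import Pool.Agent.Lib.MP_a47f92_an.L.Lit

set_option autoImplicit false

/-! Assembly: the statement for currents follows from the statement for measures on frames. -/

namespace Pool.Agent.Lib.MP_a47f92_an.L

open MeasureTheory Filter Topology Set Complex
open scoped ContDiff

variable {n p d : ℕ} {σ : Cu n p} {τ : Cur n (2 * p)} {F : E n → E n} {D : Set (E n)}
  {a : E n → ℝ} {q : Fin p → E n → ℝ}

/-- `τ` is the current attached to the pair `σ`. -/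
structure Rp2 (σ : Cu n p) (τ : Cur n (2 * p)) : Prop where
  c1 : IsCur σ.1
  c2 : IsCur σ.2
  eq : ∀ φ, Basic φ → τ φ = kap p * (∫ x, fv φ x ∂σ.1 - ∫ x, fv φ x ∂σ.2)

theorem Rp2.W (hW : WqS) (h : Rp2 σ τ) (ha : LH 0 a) (hq : Pots q) :
    τ (fun z => a z • Wq p q z) = prR σ a q := by
  rw [h.eq _ ((hW n p q hq).1.fsmul ha), mul_sub, int_W hW h.c1 _ hq, int_W hW h.c2 _ hq, prR]

theorem Rp2.grn (hW : WqS) (h : Rp2 σ τ) (hF : IsLift d F) (ha : LH 0 a) (m : ℕ) :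
    ((d : ℝ) ^ (p * m))⁻¹ * τ (fun z => a z • pull F^[m] (fs p) z) =
      prR σ a fun _ => green d F m := by
  have hG := hF.iterate m
  have e : ∀ S : Measure (Fr n p), pr S a (fun _ => green d F m) =
      ((d : ℝ) ^ (p * m))⁻¹ * pr S a fun _ z => lg (F^[m] z) := fun S => by
    have := pr_const_mul_all S a (fun _ z => lg (F^[m] z)) fun _ => ((d : ℝ) ^ m)⁻¹
    rw [Finset.prod_const, Finset.card_univ, Fintype.card_fin, inv_pow, ← pow_mul,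
      mul_comm m p] at this
    exact this
  rw [fs_eq, h.eq _ (((hW n p _ pots_lg).1.pull hG).fsmul ha), mul_sub,
    int_pull hW h.c1 hG _ pots_lg, int_pull hW h.c2 hG _ pots_lg, prR, e, e, mul_sub]

theorem Rp2.closed (hS : SpanS) (hE : ExtS) (hC : ConvS) : ∀ {p : ℕ} {σ : Cu n p}
    {τ : Cur n (2 * p)}, Rp2 σ τ → Closed τ → ∀ a b, LH 0 a → LH 0 b → ∀ q, Pots q → ∀ l,
    ∫ x, mdC (Function.update (fun l' => lv (q l') x) l (gr a b x + (a x.1 : ℂ) • lv b x)) ∂σ.1 =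
    ∫ x, mdC (Function.update (fun l' => lv (q l') x) l (gr a b x + (a x.1 : ℂ) • lv b x)) ∂σ.2
  | 0, _, _, _, _, _, _, _, _, _, _, l => l.elim0
  | p + 1, σ, τ, h, hc, a, b, ha, hb, q, hq, l => by
    obtain ⟨η₁, η₂, h1, h2, h3⟩ := hC n p a b q l ha hb hq
    have b1 := hE _ _ _ h1
    have b2 := hE _ _ _ h2
    have e : ∀ S : Measure (Fr n (p + 1)), IsCur S →
        ∫ x, mdC (Function.update (fun l' => lv (q l') x) l (gr a b x + (a x.1 : ℂ) • lv b x)) ∂S =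
        (kap (p + 1) * ∫ x, fv (p := p + 1) (extDeriv η₁) x ∂S : ℝ) +
          I * (kap (p + 1) * ∫ x, fv (p := p + 1) (extDeriv η₂) x ∂S : ℝ) := fun S hS' => by
      rw [integral_congr_ae (hS'.ne.mono fun x hx => h3 x hx), integral_add
        ((int_fv (p := p + 1) hS hS' b1).const_mul _).ofReal
        (((int_fv (p := p + 1) hS hS' b2).const_mul _).ofReal.const_mul _), integral_const_mul,
        integral_complex_ofReal, integral_complex_ofReal, integral_const_mul, integral_const_mul]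
    have e1 := (h.eq _ b1).symm.trans (hc η₁ h1)
    have e2 := (h.eq _ b2).symm.trans (hc η₂ h2)
    rw [mul_sub, sub_eq_zero] at e1 e2
    rw [e _ h.c1, e _ h.c2, e1, e2]

theorem Pos.ord0 (hW : WqS) (h : Pos τ) : Ord0 τ := by
  have hb : Basic (fs p : Fm n (2 * p)) := fs_eq (n := n) p ▸ (hW n p _ pots_lg).1
  refine ⟨τ (fs p), fun φ hφ h1 => abs_le.2 ⟨?_, ?_⟩⟩
  · have := h _ (hb.add hφ) fun z hz v => neg_le_iff_add_nonneg'.1 (abs_le.1 (h1 z hz v)).1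
    rw [map_add] at this
    linarith
  · have := h _ (hb.sub hφ) fun z hz v => sub_nonneg.2 (abs_le.1 (h1 z hz v)).2
    rw [map_sub] at this
    linarith

/-- The statement. -/
def MainS : Prop := ∀ (k s d : ℕ), 2 ≤ d → ∀ F : E (k + 1) → E (k + 1), IsLift d F →
  ∀ U D : Set (E (k + 1)), Trap F U → Trap F D → D ⊆ U →
  (¬ ∃ S : Cur (k + 1) (2 * (s + 1)), Pos S ∧ Cl (⋂ m, F^[m] '' U) S) →
  ∀ τ : Cur (k + 1) (2 * s), Pos τ ∨ Ord0 τ → Cl D τ → Attr d F D τ →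
    (∃ ν, IsEq d F τ ν) ∧
      ∀ ν, IsEq d F τ ν → IsProbabilityMeasure ν ∧ ∀ᵐ z ∂ν,
        (∀ j, 1 ≤ j → j ≤ k → chi F z j ≠ 0 ∧ (0 < chi F z j ↔ j ≤ s)) ∧
        ∃ c : ℝ, 0 < c ∧ ∃ V : Submodule ℂ (E (k + 1)), z ∈ V ∧
          Module.finrank ℂ V + s = k + 1 ∧ (∀ v ∈ V, lyap F z v ≤ (-c : ℝ)) ∧
          ∀ v ∉ V, (c : EReal) ≤ Filter.liminf (rate F z v) Filter.atTop

theorem mainS_of (hW : WqS) (hE : ExtS) (hC : ConvS) (hS : SpanS) (hH : HardS) (hR : RepS) :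
    MainS := by
  intro k s d hd F hF U D hU hD hDU hA τ h0 hτ ha
  have hd1 : 1 ≤ d := le_trans one_le_two hd
  obtain ⟨K, k1, k2, k3, k4⟩ := hτ.supp
  obtain ⟨σ, c1, c2, c3, c4⟩ := hR _ s D K τ hD.op hD.cone k1 k2 k3
    (h0.elim (Pos.ord0 hW) id) k4
  have h : Rp2 σ τ := ⟨c1, c2, c4⟩
  have hσ : InR D σ := ⟨c1, c2, h.closed hS hE hC hτ.closed, by
    rw [← h.W hW (lh_const 1) pots_lg, ← fs_one, hτ.mass], c3⟩
  have hA' : ¬ ∃ S : Measure (Fr (k + 1) (s + 1)), InC (⋂ m, F^[m] '' U) S := fun ⟨S, hS'⟩ => by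
    obtain ⟨T, hT⟩ := exists_rp hS hS'.cur
    exact hA ⟨T, hT.pos hS'.cur, hT.cl hW hE hH hS'⟩
  have ha' : AttrR d F D σ := fun S h1 h2 a h3 q h4 => by
    obtain ⟨T, hT⟩ := exists_rp hS h1.cur
    have h5 := ha T (hT.pos h1.cur) (hT.cl hW hE hH h1) (hT.cont hS h1.cur h2) _
      ((hW _ s q h4).1.fsmul h3)
    rw [h.W hW h3 h4] at h5
    simpa only [fun m => hT.pull hW h1.cur (hF.iterate m) (Nat.one_le_pow _ _ hd1) h3 h4] using h5
  have e : ∀ ν, IsEq d F τ ν ↔ IsEqR d F σ ν := fun ν =>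
    ⟨fun h' => ⟨h'.fin, h'.ne, fun a h1 => (h'.lim a h1.1 (lh_iff.1 h1).2).congr
      fun m => h.grn hW hF h1 m⟩, fun h' => ⟨h'.fin, h'.ne, fun a h1 h2 =>
      (h'.lim a (lh_iff.2 ⟨h1, h2⟩)).congr fun m => (h.grn hW hF (lh_iff.2 ⟨h1, h2⟩) m).symm⟩⟩
  have w := wmain hd hF hU hD hDU hA' hσ ha'
  simp only [e]
  exact ⟨w.1, fun ν hν => ⟨(w.2 ν hν).1,
    (w.2 ν hν).2.mono fun _ hz => ⟨fun j _ _ => hz.chi_ne j, hz.exp⟩⟩⟩

end Pool.Agent.Lib.MP_a47f92_an.L
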