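import Pool.Agent.Lib.MP_a47f92_an.L.Skel

set_option autoImplicit false

/-! Elementary properties of basic forms. -/

namespace Pool.Agent.Lib.MP_a47f92_an.L

open MeasureTheory Filter Topology Set Complex
open scoped ContDiff

variable {n r p : ℕ} {φ ψ : Fm n r}

theorem form_expand {ι : Type} [Fintype ι] (b : Module.Basis ι ℝ (E n))
    (f : E n [⋀^Fin r]→L[ℝ] ℝ) (w : Fin r → E n) :
    f w = ∑ K : Fin r → ι, (∏ l, b.repr (w l) (K l)) * f fun l => b (K l) := by
  classical
  have e : w = fun l => ∑ i, b.repr (w l) i • b i := funext fun l => (b.sum_repr _).symm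
  conv_lhs => rw [e]
  refine (f.toContinuousMultilinearMap.map_sum _).trans (Finset.sum_congr rfl fun K _ => ?_)
  exact f.toContinuousMultilinearMap.map_smul_univ _ _

theorem contDiffAt_form {X : Type} [NormedAddCommGroup X] [NormedSpace ℝ X] {x : X}
    {f : X → E n [⋀^Fin r]→L[ℝ] ℝ} (h : ∀ v, ContDiffAt ℝ ∞ (fun y => f y v) x) :
    ContDiffAt ℝ ∞ f x := by
  classical
  let b := Module.finBasis ℝ (E n)
  let ev : (E n [⋀^Fin r]→L[ℝ] ℝ) →ₗ[ℝ] ((Fin r → Fin (Module.finrank ℝ (E n))) → ℝ) :=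
    { toFun := fun g K => g fun l => b (K l)
      map_add' := fun _ _ => rfl
      map_smul' := fun _ _ => rfl }
  obtain ⟨L, hL⟩ := ev.exists_leftInverse_of_injective (LinearMap.ker_eq_bot'.2 fun g hg => by
    ext w
    rw [form_expand b]
    exact Finset.sum_eq_zero fun K _ => mul_eq_zero_of_right _ (congrFun hg K))
  have e : f = fun y => LinearMap.toContinuousLinearMap L (ev (f y)) :=
    funext fun y => (LinearMap.congr_fun hL (f y)).symm
  rw [e]
  exact (LinearMap.toContinuousLinearMap L).contDiff.contDiffAt.comp x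
    (contDiffAt_pi.2 fun K => h _)

theorem contDiffAt_apply {X : Type} [NormedAddCommGroup X] [NormedSpace ℝ X] {x : X}
    {f : X → E n [⋀^Fin r]→L[ℝ] ℝ} {w : X → Fin r → E n} (h : ContDiffAt ℝ ∞ f x)
    (hw : ∀ l, ContDiffAt ℝ ∞ (fun y => w y l) x) : ContDiffAt ℝ ∞ (fun y => f y (w y)) x := by
  classical
  let b := Module.finBasis ℝ (E n)
  simp only [form_expand b (f _) (w _)]
  refine ContDiffAt.sum fun K _ => (contDiffAt_prod fun l _ => ?_).mul ?_
  · exact (LinearMap.toContinuousLinearMap (b.coord (K l))).contDiff.contDiffAt.comp x (hw l)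
  · exact (ContinuousAlternatingMap.apply ℝ (E n) ℝ fun l => b (K l)).contDiff.contDiffAt.comp x h

theorem Basic.at (h : Basic φ) {z : E n} (hz : z ≠ 0) : ContDiffAt ℝ ∞ φ z :=
  h.smooth.contDiffAt (isOpen_compl_singleton.mem_nhds hz)

theorem basic_zero : Basic (0 : Fm n r) :=
  ⟨contDiffOn_const, fun _ _ _ _ _ => rfl, fun _ _ _ _ _ => rfl⟩

theorem Basic.add (h : Basic φ) (h' : Basic ψ) : Basic (φ + ψ) :=
  ⟨h.smooth.add h'.smooth, fun c hc z hz v => by
    simp only [Pi.add_apply, ContinuousAlternatingMap.add_apply,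
       h.inv c hc z hz, h'.inv c hc z hz],
    fun z hz v j hv => by
      simp only [Pi.add_apply, ContinuousAlternatingMap.add_apply,
       h.hor z hz v j hv, h'.hor z hz v j hv, add_zero]⟩

theorem Basic.fsmul (h : Basic φ) {a : E n → ℝ} (ha : LH 0 a) : Basic fun z => a z • φ z :=
  ⟨ha.1.smul h.smooth, fun c hc z hz v => by
    simp only [ContinuousAlternatingMap.smul_apply, h.inv c hc z hz, ha.inv0 c hc z hz],
    fun z hz v j hv => by
      simp only [ContinuousAlternatingMap.smul_apply, h.hor z hz v j hv, smul_zero]⟩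

theorem Basic.smul (h : Basic φ) (c : ℝ) : Basic (c • φ) := h.fsmul (lh_const c)

theorem Basic.neg (h : Basic φ) : Basic (-φ) := by
  rw [← neg_one_smul ℝ φ]
  exact h.smul (-1)

theorem Basic.sub (h : Basic φ) (h' : Basic ψ) : Basic (φ - ψ) := by
  simpa only [sub_eq_add_neg] using h.add h'.neg

theorem Basic.congr (h : Basic φ) (e : ∀ z ≠ 0, ψ z = φ z) : Basic ψ :=
  ⟨h.smooth.congr e, fun c hc z hz v => by
    rw [e _ (smul_ne_zero hc hz), e z hz, h.inv c hc z hz],
    fun z hz v j hv => by rw [e z hz, h.hor z hz v j hv]⟩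

/-- The space of basic forms. -/
def bas (n r : ℕ) : Submodule ℝ (Fm n r) where
  carrier := {φ | Basic φ}
  add_mem' := Basic.add
  zero_mem' := basic_zero
  smul_mem' c _ h := Basic.smul h c

theorem Basic.sum {ι : Type} (T : Finset ι) {f : ι → Fm n r} (h : ∀ i ∈ T, Basic (f i)) :
    Basic (∑ i ∈ T, f i) :=
  (bas n r).sum_mem h

theorem lh_iff {a : E n → ℝ} : LH 0 a ↔
    ContDiffOn ℝ ∞ a {0}ᶜ ∧ ∀ c : ℂ, c ≠ 0 → ∀ z, a (c • z) = a z := by
  refine and_congr_right fun _ => ⟨fun h c hc z => ?_, fun h c hc z _ => ?_⟩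
  · by_cases hz : z = 0
    · rw [hz, smul_zero]
    · rw [h c hc z hz, zero_mul, add_zero]
  · rw [h c hc z, zero_mul, add_zero]

variable {d : ℕ} {F : E n → E n}

theorem fderiv_real (hF : IsLift d F) (z v : E n) : fderiv ℝ F z v = fderiv ℂ F z v := by
  rw [(hF.differentiable z).fderiv_restrictScalars ℝ]
  rfl

theorem pull_apply (hF : IsLift d F) (φ : Fm n r) (z : E n) (v : Fin r → E n) :
    pull F φ z v = φ (F z) fun j => fderiv ℂ F z (v j) := by
  simp only [pull, ContinuousAlternatingMap.compContinuousLinearMap_apply, Function.comp_def,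
    fderiv_real hF]

theorem fderiv_scl (hF : IsLift d F) (c : ℂ) (z v : E n) :
    fderiv ℂ F (c • z) (c • v) = c ^ d • fderiv ℂ F z v := by
  have h1 : HasFDerivAt (fun w => F (c • w)) _ z :=
    (hF.differentiable (c • z)).hasFDerivAt.comp z ((hasFDerivAt_id z).const_smul c)
  simp only [hF.hom] at h1
  exact congrArg (· v) (h1.unique ((hF.differentiable z).hasFDerivAt.const_smul (c ^ d)))

theorem Basic.pull (h : Basic φ) (hF : IsLift d F) : Basic (pull F φ) := by
  refine ⟨fun z hz => (contDiffAt_form fun v => ?_).contDiffWithinAt, fun c hc z hz v => ?_,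
    fun z hz v j hv => ?_⟩
  · refine contDiffAt_apply (w := fun y j => fderiv ℝ F y (v j))
      ((h.at (hF.ne hz)).comp z hF.contDiffR.contDiffAt) fun l => ?_
    exact (hF.contDiffR.contDiffAt.fderiv_right (m := ∞) le_rfl).clm_apply contDiffAt_const
  · rw [pull_apply hF, pull_apply hF, hF.hom, ← h.inv _ (pow_ne_zero d hc) _ (hF.ne hz)]
    exact congrArg _ (funext fun j => fderiv_scl hF c z (v j))
  · obtain ⟨c, hc⟩ := hv
    rw [pull_apply hF]
    refine h.hor _ (hF.ne hz) _ j ⟨c * d, ?_⟩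
    rw [hc, map_smul, hF.euler, smul_smul]

theorem pullS : PullS := fun _ _ _ _ _ hF h => h.pull hF

theorem fv_pull (hF : IsLift d F) (φ : Fm n (2 * p)) (x : Fr n p) :
    fv (pull F φ) x = fv φ (fw F x) := by
  rw [fv, pull_apply hF, fv]
  refine congrArg _ (funext fun j => ?_)
  simp only [cx, ext, fw, map_smul]
  split_ifs
  · rfl
  · rw [map_zero]

theorem fv_fsmul (a : E n → ℝ) (φ : Fm n (2 * p)) (x : Fr n p) :
    fv (fun z => a z • φ z) x = a x.1 * fv φ x := rfl

/-- Every complex frame of the right length comes from a finite family. -/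
theorem cx_eq (v : ℕ → E n) : (cx v : Fin (2 * p) → E n) = cx (ext fun j : Fin p => v j) := by
  funext j
  have : (j : ℕ) / 2 < p := by omega
  simp only [cx, ext, dif_pos this]

end Pool.Agent.Lib.MP_a47f92_an.L
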