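import Pool.Agent.Lib.MP_a47f92_an.G.LDef

set_option autoImplicit false

/-! Forms and currents on the projective space of `E n = ℂ ^ n`. A smooth form on projective space
is identified with its pull-back to `E n` minus the origin. -/

namespace Pool.Agent.Lib.MP_a47f92_an.L

open MeasureTheory Filter Topology Set Complex ContinuousAlternatingMap
open scoped ContDiff

variable {n r : ℕ}

/-- Real differential forms of degree `r` on `E n`. -/
abbrev Fm (n r : ℕ) := E n → E n [⋀^Fin r]→L[ℝ] ℝ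

/-- `φ` is the pull-back of a smooth form on projective space: smooth off the origin, invariant
under the action of `ℂ*`, and horizontal. -/
structure Basic (φ : Fm n r) : Prop where
  smooth : ContDiffOn ℝ ∞ φ {0}ᶜ
  inv : ∀ c : ℂ, c ≠ 0 → ∀ z ≠ 0, ∀ v, φ (c • z) (c • v) = φ z v
  hor : ∀ z ≠ 0, ∀ v j, (∃ c : ℂ, v j = c • z) → φ z v = 0

/-- Currents of dimension `r`: linear functionals on forms. Only the values on basic forms enter. -/
abbrev Cur (n r : ℕ) := Fm n r →ₗ[ℝ] ℝ

/-- The complex frame `v 0, i v 0, v 1, i v 1, …`. -/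
noncomputable def cx (v : ℕ → E n) (j : Fin r) : E n := I ^ ((j : ℕ) % 2) • v (j / 2)

/-- The one-form `d^c log |z|`, where `d^c u (v) = - du (i v) / (2 π)`. -/
noncomputable def dcLog (z : E n) : E n →L[ℝ] ℝ :=
  -(2 * Real.pi)⁻¹ • (fderiv ℝ (fun w => Real.log ‖w‖) z).comp (I • ContinuousLinearMap.id ℝ (E n))

/-- The powers of the Fubini-Study form `ω = d d^c log |z|`, by the recursion
`ω ^ (p + 1) = d (d^c log |z| ∧ ω ^ p)`. -/
noncomputable def fs : (p : ℕ) → Fm n (2 * p)
  | 0 => fun _ => constOfIsEmpty ℝ (E n) (Fin 0) 1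
  | p + 1 => extDeriv fun z => alternatizeUncurryFin ((dcLog z).smulRight (fs p z))

/-- The pull-back of a form. -/
noncomputable def pull (G : E n → E n) (φ : Fm n r) : Fm n r :=
  fun z => (φ (G z)).compContinuousLinearMap (fderiv ℝ G z)

/-- `T` vanishes on exact forms. -/
def Closed : {r : ℕ} → Cur n r → Prop
  | 0, _ => True
  | _ + 1, T => ∀ η, Basic η → T (extDeriv η) = 0

/-- `T` is positive: it is nonnegative on the forms that are nonnegative on complex frames. -/
def Pos (T : Cur n r) : Prop :=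
  ∀ φ, Basic φ → (∀ z ≠ 0, ∀ v, 0 ≤ φ z (cx v)) → 0 ≤ T φ

variable {p : ℕ}

/-- `T` has order zero and bidimension `(p, p)`. -/
def Ord0 (T : Cur n (2 * p)) : Prop :=
  ∃ C, ∀ φ, Basic φ → (∀ z ≠ 0, ∀ v, |φ z (cx v)| ≤ fs p z (cx v)) → |T φ| ≤ C

/-- `T` is closed, has mass one and is supported in `D`. -/
structure Cl (D : Set (E n)) (T : Cur n (2 * p)) : Prop where
  closed : Closed T
  mass : T (fs p) = 1
  supp : ∃ K, IsClosed K ∧ IsCone K ∧ K \ {0} ⊆ D ∧
    ∀ φ, Basic φ → Disjoint (tsupport φ) (K \ {0}) → T φ = 0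

/-- On the maps `φ : V → A` satisfying `B`, the functional `T` is the integral against a continuous
density with compact support off the origin. -/
def Dens {V A : Type} [TopologicalSpace V] [Zero V] [MeasureSpace V] [AddCommGroup A] [Module ℝ A]
    [TopologicalSpace A] (B : (V → A) → Prop) (T : (V → A) → ℝ) : Prop :=
  ∃ Ψ : V → A →L[ℝ] ℝ, Continuous Ψ ∧ HasCompactSupport Ψ ∧
    0 ∉ tsupport Ψ ∧ ∀ φ, B φ → T φ = ∫ z, Ψ z (φ z)

/-- `T` has continuous coefficients: it is the fibre integral of a continuous density. -/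
def Cont (T : Cur n r) : Prop := Dens Basic T

/-- The Cesàro means of `d ^ (-p m) (f ^ m)_* R` converge to `τ` for every continuous positive
closed current `R` of mass one supported in `D`. -/
def Attr (d : ℕ) (F : E n → E n) (D : Set (E n)) (τ : Cur n (2 * p)) : Prop :=
  ∀ R : Cur n (2 * p), Pos R → Cl D R → Cont R → ∀ φ, Basic φ →
    Tendsto (fun N : ℕ => (N : ℝ)⁻¹ * ∑ m ∈ Finset.range N,
      ((d : ℝ) ^ (p * m))⁻¹ * R (pull F^[m] φ)) atTop (𝓝 (τ φ))

/-- The image of `ν` in projective space is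
`τ ∧ T ^ p = lim τ ∧ d ^ (-p m) (f ^ m)^* ω ^ p`. -/
structure IsEq (d : ℕ) (F : E n → E n) (τ : Cur n (2 * p)) (ν : Measure (E n)) : Prop where
  fin : IsFiniteMeasure ν
  ne : ∀ᵐ z ∂ν, z ≠ 0
  lim : ∀ a : E n → ℝ, ContDiffOn ℝ ∞ a {0}ᶜ → (∀ c : ℂ, c ≠ 0 → ∀ z, a (c • z) = a z) →
    Tendsto (fun m => ((d : ℝ) ^ (p * m))⁻¹ * τ fun z => a z • pull F^[m] (fs p) z) atTop
      (𝓝 (∫ z, a z ∂ν))

end Pool.Agent.Lib.MP_a47f92_an.L
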