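import Pool.Agent.Lib.MP_a47f92_an.L.Bas

set_option autoImplicit false

/-! The exterior derivative of a basic form is basic. -/

namespace Pool.Agent.Lib.MP_a47f92_an.L

open MeasureTheory Filter Topology Set Complex
open scoped ContDiff

variable {n r : ℕ} {φ : Fm n r}

theorem Basic.hor_add (h : Basic φ) {z : E n} (hz : z ≠ 0) (v : Fin r → E n) (c : Fin r → ℂ) :
    φ z (fun j => v j + c j • z) = φ z v := by
  classical
  refine ((φ z).toContinuousMultilinearMap.toMultilinearMap.map_add_univ v fun j => c j • z).trans ?_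
  rw [Finset.sum_eq_single Finset.univ, Finset.piecewise_univ]
  · rfl
  · intro T _ hT
    obtain ⟨j, hj⟩ : ∃ j, j ∉ T := not_forall.1 fun h' => hT (Finset.eq_univ_iff_forall.2 h')
    exact h.hor z hz _ j ⟨c j, Finset.piecewise_eq_of_notMem _ _ _ hj⟩
  · exact fun h' => absurd (Finset.mem_univ _) h'

/-- Invariance of the exterior derivative under maps along the fibres. -/
theorem Basic.ext_fibre (h : Basic φ) {g : E n → ℂ} {z : E n} (hz : z ≠ 0)
    (hg : ContDiffAt ℝ ∞ g z) (h0 : g z ≠ 0) (v : Fin (r + 1) → E n) :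
    extDeriv φ z v = extDeriv φ (g z • z) fun j => g z • v j + fderiv ℝ g z (v j) • z := by
  have hG : ContDiffAt ℝ ∞ (fun y => g y • y) z := hg.smul contDiffAt_id
  have hd : ∀ y, DifferentiableAt ℝ g y → ∀ u,
      fderiv ℝ (fun y => g y • y) y u = g y • u + fderiv ℝ g y u • y := fun y hy u =>
    congrArg (· u) (hy.hasFDerivAt.smul (hasFDerivAt_id y)).fderiv
  have e : φ =ᶠ[𝓝 z] fun y =>
      (φ (g y • y)).compContinuousLinearMap (fderiv ℝ (fun y => g y • y) y) := by
    filter_upwards [isOpen_compl_singleton.mem_nhds hz, hg.continuousAt.eventually_ne h0,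
      (hg.of_le (m := 1) (by simp)).eventually (by simp)] with y h1 h2 h3
    ext w
    have h4 := h.hor_add (smul_ne_zero h2 h1) (g y • w) fun j => fderiv ℝ g y (w j) / g y
    rw [h.inv _ h2 y h1] at h4
    rw [← h4]
    refine congrArg _ (funext fun j => ?_)
    refine Eq.trans ?_ (hd y (h3.differentiableAt one_ne_zero) (w j)).symm
    rw [smul_smul, div_mul_cancel₀ _ h2]
    rfl
  rw [e.extDeriv_eq, extDeriv_pullback (r := ∞) (f := fun y => g y • y)
    ((h.at (smul_ne_zero h0 hz)).differentiableAt (by simp)) hG (by simpa using GW2_two)]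
  exact congrArg _ (funext fun j => hd z (hg.differentiableAt (by simp)) _)

theorem Basic.ext (h : Basic φ) : Basic (extDeriv φ) := by
  refine ⟨fun z hz => ContDiffAt.contDiffWithinAt ?_, fun c hc z hz v => ?_, fun z hz v j hv => ?_⟩
  · exact (ContinuousAlternatingMap.alternatizeUncurryFinCLM ℝ (E n) ℝ).contDiff.contDiffAt.comp z
      ((h.at hz).fderiv_right (m := ∞) le_rfl)
  · rw [h.ext_fibre (g := fun _ => c) hz contDiffAt_const hc v]
    refine congrArg _ (funext fun j => ?_)
    simp
  · obtain ⟨c, hc⟩ := hv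
    let l : E n →L[ℂ] ℂ := innerSL ℂ z
    have hl : l z ≠ 0 := inner_self_ne_zero.2 hz
    have h1 : HasFDerivAt (fun y => (l y)⁻¹) _ z :=
      (hasDerivAt_inv hl).comp_hasFDerivAt z l.hasFDerivAt
    rw [h.ext_fibre (g := fun y => (l y)⁻¹) hz
      ((l.restrictScalars ℝ).contDiff.contDiffAt.inv hl) (inv_ne_zero hl) v]
    refine (extDeriv φ _).map_coord_zero j ?_
    rw [(h1.restrictScalars ℝ).fderiv, hc, smul_smul, ← add_smul]
    refine smul_eq_zero_of_left ?_ _
    change _ + -(l z ^ 2)⁻¹ * l (c • z) = 0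
    rw [map_smul, smul_eq_mul]
    field_simp
    ring

theorem extS : ExtS := fun _ _ _ h => h.ext

end Pool.Agent.Lib.MP_a47f92_an.L
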