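import Mathlib

set_option autoImplicit false

/-! Positive functionals on a space of continuous functions are given by measures. -/

namespace Pool.Agent.Lib.MP_a47f92_an

open MeasureTheory Set
open scoped CompactlySupported

theorem rm_compact {X V : Type} [MetricSpace X] [CompactSpace X] [MeasurableSpace X] [BorelSpace X]
    [AddCommGroup V] [Module ℝ V] (e : V →ₗ[ℝ] C(X, ℝ)) (S : V →ₗ[ℝ] ℝ)
    (hS : ∀ φ, (∀ x, 0 ≤ e φ x) → 0 ≤ S φ) {φ₀ : V} (h₀ : ∀ x, 0 < e φ₀ x) :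
    ∃ μ : Measure X, IsFiniteMeasure μ ∧ ∀ φ, S φ = ∫ x, e φ x ∂μ := by
  have hk : LinearMap.ker e ≤ LinearMap.ker S := fun φ h => by
    have h1 : e φ = 0 := h
    have h2 := hS φ fun x => by simp [h1]
    have h3 := hS (-φ) fun x => by simp [h1]
    rw [map_neg] at h3
    exact LinearMap.mem_ker.2 (by linarith)
  let f : C(X, ℝ) →ₗ.[ℝ] ℝ := ⟨LinearMap.range e,
    ((LinearMap.ker e).liftQ S hk).comp e.quotKerEquivRange.symm.toLinearMap⟩
  have hf : ∀ φ, f ⟨e φ, LinearMap.mem_range_self e φ⟩ = S φ := fun φ => by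
    change (LinearMap.ker e).liftQ S hk (e.quotKerEquivRange.symm ⟨e φ, _⟩) = S φ
    rw [LinearMap.quotKerEquivRange_symm_apply_image]
    rfl
  obtain ⟨g, hg, hg0⟩ := riesz_extension (PointedCone.positive ℝ C(X, ℝ)) f
    (by
      rintro ⟨_, φ, rfl⟩ h
      exact (hf φ).symm ▸ hS φ fun x => (show (0 : C(X, ℝ)) ≤ e φ from h) x)
    (fun y => by
      obtain ⟨C, hC⟩ := isCompact_univ.exists_bound_of_continuousOn
        (y.continuous.div (e φ₀).continuous fun x => (h₀ x).ne').continuousOn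
      refine ⟨⟨e (C • φ₀), LinearMap.mem_range_self e _⟩, fun x => ?_⟩
      have h1 := (abs_le.1 (hC x trivial)).1
      rw [Pi.div_apply, le_div_iff₀ (h₀ x)] at h1
      change 0 ≤ e (C • φ₀) x + y x
      rw [map_smul, ContinuousMap.smul_apply, smul_eq_mul]
      linarith)
  let Λ : C_c(X, ℝ) →ₚ[ℝ] ℝ :=
    { toFun u := g u
      map_add' u v := g.map_add (u : C(X, ℝ)) (v : C(X, ℝ))
      map_smul' c u := g.map_smul c (u : C(X, ℝ))
      monotone' u v h := by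
        have := hg0 ((v : C(X, ℝ)) - (u : C(X, ℝ))) fun x => sub_nonneg.2 (h x)
        rw [map_sub] at this
        exact sub_nonneg.1 this }
  refine ⟨RealRMK.rieszMeasure Λ, inferInstance, fun φ => ?_⟩
  rw [← hf φ, ← hg]
  exact (RealRMK.integral_rieszMeasure Λ ⟨e φ, HasCompactSupport.of_compactSpace _⟩).symm

/-- The same for functions that are continuous on a compact subset `K`. -/
theorem rm_on {X V : Type} [MetricSpace X] [MeasurableSpace X] [BorelSpace X]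
    [AddCommGroup V] [Module ℝ V] {K : Set X} (hK : IsCompact K) (e : V →ₗ[ℝ] X → ℝ)
    (he : ∀ φ, ContinuousOn (e φ) K) (S : V →ₗ[ℝ] ℝ)
    (hS : ∀ φ, (∀ x ∈ K, 0 ≤ e φ x) → 0 ≤ S φ) {φ₀ : V} (h₀ : ∀ x ∈ K, 0 < e φ₀ x) :
    ∃ μ : Measure X, IsFiniteMeasure μ ∧ (∀ᵐ x ∂μ, x ∈ K) ∧ ∀ φ, S φ = ∫ x, e φ x ∂μ := by
  have := isCompact_iff_compactSpace.1 hK
  let e' : V →ₗ[ℝ] C(K, ℝ) :=
    { toFun φ := ⟨fun x => e φ x, (he φ).domRestrict⟩
      map_add' u v := by ext x; simp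
      map_smul' c u := by ext x; simp }
  obtain ⟨μ, h1, h2⟩ := rm_compact e' S (fun φ h => hS φ fun x hx => h ⟨x, hx⟩)
    (φ₀ := φ₀) fun x => h₀ x x.2
  have hm := MeasurableEmbedding.subtype_coe hK.measurableSet
  refine ⟨μ.map Subtype.val, inferInstance, hm.ae_map_iff.2 (ae_of_all _ fun x => x.2),
    fun φ => ?_⟩
  rw [hm.integral_map, h2]
  rfl

end Pool.Agent.Lib.MP_a47f92_an
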