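import Pool.Agent.Lib.MP_a47f92_an.L.Lit
import Pool.Agent.Lib.MP_a47f92_an.L.RM

set_option autoImplicit false

/-! A current of order zero is the difference of two measures on frames. -/

namespace Pool.Agent.Lib.MP_a47f92_an.L

open MeasureTheory Filter Topology Set Complex
open scoped ContDiff

variable {n p : ℕ} {φ : Fm n (2 * p)} {τ : Cur n (2 * p)} {K K' : Set (E n)}

theorem tst_sum {ι : Type} [Fintype ι] {g : ι → Fr n p → ℂ} (h : ∀ i, Tst (g i)) {f : Fr n p → ℂ}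
    (e : ∀ x, x.1 ≠ 0 → f x = ∑ i, g i x) : Tst f :=
  ⟨⟨fun c hc x hx => by
      rw [e _ (smul_ne_zero hc hx), e x hx]
      exact Finset.sum_congr rfl fun i _ => (h i).alg.hs c hc x hx,
    fun P c x hx => by
      rw [e (chg P c x) hx, e x hx, Finset.mul_sum]
      exact Finset.sum_congr rfl fun i _ => (h i).alg.hc P c x hx⟩,
    (continuousOn_finsetSum _ fun i _ => (h i).cont).congr e⟩

theorem tst_fv (hS : SpanS) (hφ : Basic φ) : Tst fun x => ((kap p * fv φ x : ℝ) : ℂ) := by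
  obtain ⟨ι, _, q, lam, h1, -, h3⟩ := hS n p
  obtain ⟨h4, h5⟩ := h3 φ hφ
  refine tst_sum (fun i => (tst_dc (h1 i)).mul_left (h4 i).ic) fun x hx => ?_
  rw [h5 x hx, ofReal_sum]
  refine Finset.sum_congr rfl fun i _ => ?_
  rw [dc_eq_dn (h1 i) hx, dn, if_neg hx, ofReal_mul]
  rfl

/-- Normalised frames over `K'`. -/
def Yf (p : ℕ) (K' : Set (E n)) : Set (Fr n p) := {x | x ∈ Xp n p ∧ dens x = d0 p ∧ x.1 ∈ K'}

theorem Yf_ne {x : Fr n p} (h : x ∈ Yf p K') : x.1 ≠ 0 := Cpt_ne h.1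

theorem isCompact_Yf (h : IsClosed K') : IsCompact (Yf p K') := by
  have h1 : ContinuousOn (dens : Fr n p → ℝ) (Xp n p) :=
    (continuous_re.comp_continuousOn ((tst_dc pots_lg).cont.mono fun x hx => Cpt_ne hx)).congr
      fun x hx => if_neg (Cpt_ne hx)
  have h2 := h1.preimage_isClosed_of_isClosed isCompact_Xp.isClosed (isClosed_singleton (x := d0 p))
  refine isCompact_Xp.of_isClosed_subset ?_ fun x hx => hx.1
  have e : Yf p K' = (Xp n p ∩ dens ⁻¹' {d0 p}) ∩ Prod.fst ⁻¹' K' :=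
    Set.ext fun x => and_assoc.symm
  rw [e]
  exact h2.inter (h.preimage continuous_fst)

theorem fv_le (hS : SpanS) (hc : IsCone K') (hφ : Basic φ) {t : ℝ}
    (h : ∀ x ∈ Yf p K', |kap p * fv φ x| ≤ t) {x : Fr n p} (hx : x.1 ≠ 0) (hK : x.1 ∈ K') :
    |kap p * fv φ x| ≤ t / d0 p * dens x := by
  have h1 : kap p * fv φ x = dens x / d0 p * (kap p * fv φ (nrm x)) := by
    exact_mod_cast (tst_fv hS hφ).alg.eq_nrm hx
  have h2 := dens_nonneg x
  have h3 := d0_pos p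
  by_cases h0 : dens x = 0
  · rw [h1, h0, zero_div, zero_mul, mul_zero, abs_zero]
  have h4 := h (nrm x) ⟨nrm_mem hx, NF_dens (nrm_mem hx).1 (nrm_ortho h0).1 (nrm_ortho h0).2,
    hc ((‖x.1‖⁻¹ : ℝ) : ℂ) (ofReal_ne_zero.2 (inv_ne_zero (norm_ne_zero_iff.2 hx))) _ hK⟩
  rw [h1, abs_mul, abs_of_nonneg (by positivity)]
  calc _ ≤ dens x / d0 p * t := mul_le_mul_of_nonneg_left h4 (by positivity)
    _ = _ := by ring

theorem rep_bound (hW : WqS) (hS : SpanS) {D : Set (E n)} (ho : IsOpen D) (hc : IsCone D)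
    (k1 : IsClosed K) (k2 : IsCone K) (k3 : K \ {0} ⊆ D) (h0 : Ord0 τ)
    (hs : ∀ φ, Basic φ → Disjoint (tsupport φ) (K \ {0}) → τ φ = 0) :
    ∃ K' C, CC K' ∧ K' \ {0} ⊆ D ∧ ∀ φ, Basic φ → ∀ t, 0 ≤ t →
      (∀ x ∈ Yf p K', |kap p * fv φ x| ≤ t) → |τ φ| ≤ C * t := by
  obtain ⟨χ₀, K', c1, -, c3, c4, c5, c6⟩ := exists_lh_cut ⟨k1, k2⟩ ho hc k3
  obtain ⟨C, hC⟩ := h0
  have hχ : LH 0 fun z => Real.smoothTransition (2 * χ₀ z) :=
    c1.rcomp (φ := fun t => Real.smoothTransition (2 * t))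
      (Real.smoothTransition.contDiff.comp (contDiff_const.mul contDiff_id))
  set χ : E n → ℝ := fun z => Real.smoothTransition (2 * χ₀ z) with hχd
  have hk := kap_pos p
  have hd := d0_pos p
  have hfs : ∀ x : Fr n p, x.1 ≠ 0 → kap p * fv (fs p) x = dens x := fun x hx => by
    rw [fs_eq, (hW n p _ pots_lg).2 x hx, dens, dn, if_neg hx, dc]
  have hC0 : 0 ≤ C := (abs_nonneg _).trans (hC 0 basic_zero fun z hz v => by
    have := hfs (z, fun j => v j) hz
    rw [cx_eq v]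
    exact (abs_zero (α := ℝ)).le.trans
      (nonneg_of_mul_nonneg_right (this.ge.trans' (dens_nonneg _)) hk))
  refine ⟨K', C / d0 p, c4, c5, fun φ hφ t ht h => ?_⟩
  have e : τ φ = τ fun z => χ z • φ z := by
    rw [← sub_eq_zero, ← map_sub]
    refine hs _ (hφ.sub (hφ.fsmul hχ)) (disjoint_right.2 fun z hz => ?_)
    refine notMem_tsupport_iff_eventuallyEq.2 ?_
    have h1 : ∀ᶠ w in 𝓝 z, 1 / 2 < χ₀ w := (c1.contDiffAt hz.2).continuousAt.eventually
      (lt_mem_nhds (by rw [c3 z hz.1 hz.2]; norm_num))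
    filter_upwards [h1] with w hw
    simp only [Pi.sub_apply, hχd, Real.smoothTransition.one_of_one_le (by linarith : 1 ≤ 2 * χ₀ w),
      one_smul, sub_self, Pi.zero_apply]
  refine le_of_forall_pos_le_add fun ε hε => ?_
  have hu : 0 < t / d0 p + ε / (C + 1) := by positivity
  have h2 := hC _ ((hφ.fsmul hχ).smul (t / d0 p + ε / (C + 1))⁻¹) fun z hz v => by
    have h3 := hfs (z, fun j => v j) hz
    have h4 := dens_nonneg (z, fun j : Fin p => v j)
    rw [cx_eq v]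
    change |(t / d0 p + ε / (C + 1))⁻¹ * (χ z * fv φ (z, fun j => v j))| ≤
      fv (fs p) (z, fun j => v j)
    refine le_of_mul_le_mul_left ?_ hk
    rw [h3, abs_mul, abs_of_pos (inv_pos.2 hu), mul_left_comm, inv_mul_le_iff₀ hu, abs_mul,
      abs_of_nonneg (Real.smoothTransition.nonneg _)]
    by_cases h5 : χ₀ z = 0
    · rw [h5, mul_zero, Real.smoothTransition.zero, zero_mul, mul_zero]
      positivity
    have h6 := fv_le hS c4.2 hφ h (x := (z, fun j => v j)) hz (c6 z hz h5)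
    rw [abs_mul, abs_of_pos hk] at h6
    have h7 := mul_le_mul_of_nonneg_right (Real.smoothTransition.le_one (2 * χ₀ z))
      (mul_nonneg hk.le (abs_nonneg (fv φ (z, fun j => v j))))
    have h8 : 0 ≤ ε / (C + 1) * dens (z, fun j : Fin p => v j) := by positivity
    nlinarith
  rw [map_smul, ← e, smul_eq_mul, abs_mul, abs_of_pos (inv_pos.2 hu), inv_mul_le_iff₀ hu] at h2
  have h9 : ε / (C + 1) * C ≤ ε := by
    rw [div_mul_eq_mul_div, div_le_iff₀ (by linarith)]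
    nlinarith
  calc _ ≤ _ := h2
    _ = C / d0 p * t + ε / (C + 1) * C := by ring
    _ ≤ _ := by linarith

theorem cur_of (h : IsClosed K') (μ : Measure (Fr n p × ℝ)) [IsFiniteMeasure μ]
    (hμ : ∀ᵐ y ∂μ, y.1 ∈ Yf p K') : IsCur (μ.map Prod.fst) ∧ ∀ᵐ x ∂μ.map Prod.fst, x.1 ∈ K' := by
  have h1 : ∀ᵐ x ∂μ.map Prod.fst, x ∈ Yf p K' :=
    (ae_map_iff measurable_fst.aemeasurable (isCompact_Yf h).measurableSet).2 hμ
  refine ⟨⟨inferInstance, h1.mono fun x hx => Yf_ne hx,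
    (integrable_const (d0 p)).congr (h1.mono fun x hx => ?_)⟩, h1.mono fun x hx => hx.2.2⟩
  exact hx.2.1.symm.trans (if_neg (Yf_ne hx))

theorem repS (hW : WqS) (hS : SpanS) : RepS := by
  intro n p D K τ ho hc k1 k2 k3 h0 hs
  obtain ⟨K', C, c1, c2, hb⟩ := rep_bound hW hS ho hc k1 k2 k3 h0 hs
  have main : ∃ μ : Measure (Fr n p × ℝ), IsFiniteMeasure μ ∧
      (∀ᵐ y ∂μ, y ∈ Yf p K' ×ˢ ({1, -1} : Set ℝ)) ∧
      ∀ φ, Basic φ → τ φ = ∫ y, y.2 * (kap p * fv φ y.1) ∂μ := by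
    rcases (Yf p K').eq_empty_or_nonempty with hY | ⟨x₀, hx₀⟩
    · refine ⟨0, inferInstance, by simp, fun φ hφ => ?_⟩
      have := hb φ hφ 0 le_rfl (by simp [hY])
      rw [mul_zero] at this
      rw [integral_zero_measure, abs_nonpos_iff.1 this]
    let e : (bas n (2 * p) × ℝ) →ₗ[ℝ] (Fr n p × ℝ → ℝ) :=
      { toFun := fun u y => y.2 * (kap p * fv u.1.1 y.1) + u.2
        map_add' := fun u v => funext fun y => by
          change _ * (_ * (fv u.1.1 y.1 + fv v.1.1 y.1)) + (u.2 + v.2) = _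
          simp only [Pi.add_apply]
          ring
        map_smul' := fun c u => funext fun y => by
          change _ * (_ * (c * fv u.1.1 y.1)) + c * u.2 = c * _
          ring }
    let T : (bas n (2 * p) × ℝ) →ₗ[ℝ] ℝ :=
      (τ ∘ₗ (bas n (2 * p)).subtype) ∘ₗ LinearMap.fst ℝ _ _ + C • LinearMap.snd ℝ _ _
    obtain ⟨μ, m1, m2, m3⟩ := rm_on (V := bas n (2 * p) × ℝ) (X := Fr n p × ℝ)
      ((isCompact_Yf c1.1).prod ((Set.toFinite ({1, -1} : Set ℝ)).isCompact)) e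
      (fun u => (continuousOn_snd.mul (continuous_re.comp_continuousOn
        ((tst_fv hS u.1.2).cont.comp continuousOn_fst fun y hy => Yf_ne hy.1))).add
        continuousOn_const) T
      (fun u hu => by
        have h1 : ∀ x ∈ Yf p K', |kap p * fv u.1.1 x| ≤ u.2 := fun x hx => by
          have a1 : 0 ≤ 1 * (kap p * fv u.1.1 x) + u.2 := hu (x, 1) ⟨hx, Or.inl rfl⟩
          have a2 : 0 ≤ -1 * (kap p * fv u.1.1 x) + u.2 := hu (x, -1) ⟨hx, Or.inr rfl⟩
          exact abs_le.2 ⟨by linarith, by linarith⟩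
        have h2 := (abs_le.1 (hb _ u.1.2 _ ((abs_nonneg _).trans (h1 x₀ hx₀)) h1)).1
        change 0 ≤ τ u.1.1 + C * u.2
        linarith)
      (φ₀ := (0, 1)) fun y _ => by
        change 0 < y.2 * (kap p * 0) + 1
        simp
    refine ⟨μ, m1, m2, fun φ hφ => ?_⟩
    have := m3 (⟨φ, hφ⟩, 0)
    change τ φ + C * 0 = ∫ y, y.2 * (kap p * fv φ y.1) + 0 ∂μ at this
    simpa only [mul_zero, add_zero] using this
  obtain ⟨μ, m1, m2, m3⟩ := main
  have hA : MeasurableSet {y : Fr n p × ℝ | y.2 = 1} := measurableSet_eq_fun measurable_snd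
    measurable_const
  have m4 : ∀ᵐ y ∂μ, y.1 ∈ Yf p K' := m2.mono fun y hy => hy.1
  obtain ⟨a1, a2⟩ := cur_of c1.1 (μ.restrict {y | y.2 = 1}) (ae_restrict_of_ae m4)
  obtain ⟨b1, b2⟩ := cur_of c1.1 (μ.restrict {y | y.2 = 1}ᶜ) (ae_restrict_of_ae m4)
  refine ⟨(_, _), a1, b1, ⟨K', c1.1, c1.2, c2, a2, b2⟩, fun φ hφ => ?_⟩
  have i0 : Integrable (fun y : Fr n p × ℝ => fv φ y.1) μ :=
    (int_fv hS (cur_of c1.1 μ m4).1 hφ).comp_measurable measurable_fst
  have i1 : Integrable (fun y : Fr n p × ℝ => y.2 * (kap p * fv φ y.1)) μ :=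
    (i0.const_mul _).bdd_mul (c := 1) measurable_snd.aestronglyMeasurable
      (m2.mono fun y hy => by rcases hy.2 with h | h <;> simp [show y.2 = _ from h])
  rw [m3 φ hφ, ← integral_add_compl hA i1, mul_sub, ← integral_const_mul, ← integral_const_mul,
    integral_map measurable_fst.aemeasurable ((int_fv hS a1 hφ).const_mul _).1,
    integral_map measurable_fst.aemeasurable ((int_fv hS b1 hφ).const_mul _).1, sub_eq_add_neg,
    ← integral_neg]
  congr 1
  · refine setIntegral_congr_fun hA fun y hy => ?_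
    simp only [show y.2 = 1 from hy, one_mul]
  · refine setIntegral_congr_ae hA.compl (m2.mono fun y hy h => ?_)
    rw [show y.2 = -1 from hy.2.resolve_left h, neg_one_mul]

end Pool.Agent.Lib.MP_a47f92_an.L
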