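import Pool.Agent.Lib.MP_a47f92_an.L.Skel
import Pool.Agent.Lib.MP_a47f92_an.Lit.Hard

set_option autoImplicit false

/-! Expansion of basic forms on frames, and closedness of measures on frames. -/

namespace Pool.Agent.Lib.MP_a47f92_an.L

open MeasureTheory Set Complex

variable {n r p : ℕ}

/-- The slots of a complex frame. -/
def slot (p : ℕ) : Fin (2 * p) ≃ Fin p × Fin 2 :=
  (finCongr (mul_comm 2 p)).trans finProdFinEquiv.symm

theorem cx_ext (v : Fin p → E n) : (cx (ext v) : Fin (2 * p) → E n) = fun j => frm v (slot p j) := by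
  funext j
  have h1 : (j : ℕ) / 2 < p := by omega
  have h2 : v (slot p j).1 = ext v (j / 2) := by
    rw [ext, dif_pos h1]
    rfl
  have h3 : ((slot p j).2 : ℕ) = j % 2 := rfl
  rw [frm, h2, cx]
  split_ifs with h
  · rw [← h3, h]
    simp
  · rw [show (j : ℕ) % 2 = 1 by omega, pow_one]

theorem Basic.bas {φ : Fm n r} (h : Basic φ) : Bas φ :=
  ⟨h.smooth, h.inv, fun z hz w j c hj => h.hor z hz w j ⟨c, hj⟩⟩

theorem spanS : SpanS := fun n p => by
  refine ⟨(Fin (2 * p) → Fin n) × (Fin p → Bool), inferInstance, qK (slot p),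
    fun K z => (kap p * (‖z‖ ^ 2) ^ p) • muK (slot p) K, pots_qK _, fun K => ?_,
    fun φ h => ⟨fun K => ?_, fun x hx => ?_⟩⟩
  · exact (Continuous.smul (f := fun z : E n => kap p * (‖z‖ ^ 2) ^ p) (by fun_prop)
      continuous_const).continuousOn
  · have h1 := (h.bas.lh_muK (slot p) K).const_mul (kap p)
    rw [mul_zero] at h1
    exact h1.congr fun z _ => mul_assoc _ _ _
  · rw [fv, cx_ext, (h.bas.hor _ hx).span hx, Finset.mul_sum]
    refine Finset.sum_congr rfl fun K _ => ?_
    rw [smul_apply, smul_eq_mul]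
    ring

theorem hardS : HardS := fun n p S hS hc η h => by
  simp only [fv, cx_ext]
  exact hc.hard hS h.bas (slot (p + 1))

end Pool.Agent.Lib.MP_a47f92_an.L
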