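import Pool.Agent.Lib.MP_a47f92_an.L.WdgB

set_option autoImplicit false

/-! The values of the products on complex frames. -/

namespace Pool.Agent.Lib.MP_a47f92_an.L

open Complex Finset Filter Topology ContinuousAlternatingMap
open scoped ContDiff ComplexConjugate

variable {n m p : ℕ} {z : E n} {D : ℝ} {q a b : E n → ℝ}

theorem cx_il (v : Fin p → E n) : (cx (ext v) : Fin (2 * p) → E n) = il v (I • v) := by
  funext j
  have h : (j : ℕ) / 2 < p := by omega
  simp only [cx, ext, dif_pos h, il]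
  split_ifs with h'
  · rw [h', pow_zero, one_smul]
  · rw [show (j : ℕ) % 2 = 1 by omega, pow_one, Pi.smul_apply]

theorem alt_il (f : E n [⋀^Fin (2 * p)]→L[ℝ] ℝ) (u v : Fin p → E n) :
    f (il v (-u)) = f (il u v) := by
  induction p with
  | zero => exact congrArg f (funext fun j => j.elim0)
  | succ p ih =>
    have key : ∀ (g : E n [⋀^Fin (2 * p + 1 + 1)]→L[ℝ] ℝ) (s t : E n) (y : Fin (2 * p) → E n),
        g (Fin.cons t (Fin.cons (-s) y)) = g (Fin.cons s (Fin.cons t y)) := fun g s t y => by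
      have h1 : g (Fin.cons t (Fin.cons (-s) y)) = -g (Fin.cons t (Fin.cons s y)) :=
        congrArg (fun T : E n [⋀^Fin (2 * p)]→L[ℝ] ℝ => T y)
          (map_neg (g.curryLeft t).curryLeft s)
      have h2 := g.map_insertNth 1 t (Fin.cons s y)
      rw [h1, ← Fin.succ_zero_eq_one, Fin.insertNth_succ_cons, Fin.insertNth_zero'] at *
      simpa [Matrix.vecCons] using h2.symm
    rw [il_succ, il_succ]
    exact (key f _ _ _).trans (ih (f.curryLeft (u 0) |>.curryLeft (v 0)) (Fin.tail u) (Fin.tail v))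

/-- The sesquilinear form of a matrix. -/
noncomputable def sq (H : Mat n) (u w : E n) : ℂ := ∑ i, ∑ j, u i * conj (w j) * H i j

theorem sq_I (H : Mat n) (u w : E n) : sq H (I • u) (I • w) = sq H u w := by
  refine sum_congr rfl fun i _ => sum_congr rfl fun j _ => ?_
  simp only [PiLp.smul_apply, smul_eq_mul, map_mul, conj_I]
  linear_combination (-(u i * conj (w j) * H i j)) * I_mul_I

theorem FW_sq {B : Fin p → E n → E n → ℂ} (H : Fin p → Mat n)
    (h : ∀ l u w, B l u w - B l w u = I / Real.pi * (sq (H l) u w - sq (H l) w u))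
    (v : Fin p → E n) : kap p * FW p B (il v (I • v)) = mdC fun l => rs (H l) v := by
  have hpi : (Real.pi : ℂ) ≠ 0 := ofReal_ne_zero.2 Real.pi_ne_zero
  have e : ∀ l (u w : E n), ∑ k : Fin n × Fin n, I / Real.pi * (u k.1 * H l k.1 k.2) * conj (w k.2) =
      I / Real.pi * sq (H l) u w := fun l u w => by
    rw [Fintype.sum_prod_type, sq]
    simp only [mul_sum]
    exact sum_congr rfl fun _ _ => sum_congr rfl fun _ _ => by ring
  rw [FW_il (κ := Fin n × Fin n) (fun l k u => I / Real.pi * (u k.1 * H l k.1 k.2))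
    (fun _ k w => conj (w k.2)) (fun l u w => by rw [e, e, h, mul_sub]) v (I • v)
    (fun l k j => by simp only [Pi.smul_apply, PiLp.smul_apply, smul_eq_mul]; ring)
    (fun l k j => by simp)]
  simp only [e]
  have e2 := mdC_smul (fun _ : Fin p => I / Real.pi) fun l => rs (H l) v
  refine Eq.trans (congrArg (fun t => _ * (_ * t)) e2) ?_
  rw [prod_const, card_fin, kap, ofReal_pow, ← mul_assoc, ← mul_assoc, ← mul_pow, ← mul_pow]
  have e3 : ((Real.pi / 2 : ℝ) : ℂ) * (-2 * I) * (I / Real.pi) = 1 := by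
    push_cast
    field_simp
    simp
  rw [e3, one_pow, one_mul]

theorem dcq_apply (q : E n → ℝ) (z v : E n) :
    dcq q z v = -(2 * Real.pi)⁻¹ * fderiv ℝ q z (I • v) := rfl

theorem dcq_smooth (h : ContDiffAt ℝ ∞ q z) : ContDiffAt ℝ ∞ (dcq q) z :=
  ((h.fderiv_right le_rfl).clm_comp contDiffAt_const).const_smul _

theorem fd_scl_lh (h : LH D q) {c : ℂ} (hc : c ≠ 0) (hz : z ≠ 0) (v : E n) :
    fderiv ℝ q (c • z) (c • v) = fderiv ℝ q z v := by
  rw [fd_scl ((h.contDiffAt (smul_ne_zero hc hz)).differentiableAt (by simp)) (h.2 c hc) hz,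
    fderiv_add_const]

theorem dcq_inv (h : LH D q) (c : ℂ) (hc : c ≠ 0) (z : E n) (hz : z ≠ 0) (v : E n) :
    dcq q (c • z) (c • v) = dcq q z v := by
  rw [dcq_apply, dcq_apply, smul_comm I c, fd_scl_lh h hc hz]

theorem fd_rad (h : LH 0 a) (hz : z ≠ 0) (c : ℂ) : fderiv ℝ a z (c • z) = 0 :=
  ofReal_eq_zero.1 ((GW2_ofReal a z _).symm.trans (LHb_euler h.ic hz c))

theorem fd_apply {β : E n → E n →L[ℝ] ℝ} (h : DifferentiableAt ℝ β z) (u w : E n) :
    fderiv ℝ β z u w = fderiv ℝ (fun y => β y w) z u := by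
  rw [fderiv_clm_apply h (differentiableAt_const w)]
  simp

theorem sq_hess (h : ContDiffAt ℝ 2 q z) (u w : E n) :
    sq (hess q z) u w = gd u (gb w (rc q)) z := by
  have := GL_sum (contDiffAt_rc h) (fun i => u i) (fun i => w i) ev ev
  rw [sum_ev, sum_ev] at this
  exact this.symm

theorem dcq_anti (h : ContDiffAt ℝ ∞ q z) (u w : E n) :
    (fderiv ℝ (dcq q) z u w : ℂ) - fderiv ℝ (dcq q) z w u =
      I / Real.pi * (sq (hess q z) u w - sq (hess q z) w u) := by
  have hpi : (Real.pi : ℂ) ≠ 0 := ofReal_ne_zero.2 Real.pi_ne_zero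
  have h2 := h.of_le GW2_two
  have h3 := contDiffAt_rc h2
  have e : ∀ u w, (fderiv ℝ (dcq q) z u w : ℂ) =
      -(2 * Real.pi : ℂ)⁻¹ * fderiv ℝ (fderiv ℝ (rc q)) z u (I • w) := fun u w => by
    rw [fd_apply ((dcq_smooth h).differentiableAt (by simp)), GW2_snd h2]
    simp only [dcq_apply]
    rw [fderiv_const_mul (((h.fderiv_right (m := ∞) le_rfl).clm_apply contDiffAt_const).differentiableAt
      (by simp))]
    simp
  rw [e, e, sq_hess h2, sq_hess h2, gd, gd, GW2_fd_gb h3, GW2_fd_gb h3, GW2_fd_gb h3,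
    GW2_fd_gb h3, GW2_symm h3 w u, GW2_symm h3 (I • w) u, GW2_symm h3 (I • u) w,
    GW2_symm h3 (I • w) (I • u)]
  field_simp
  linear_combination (2 * (fderiv ℝ (fderiv ℝ (rc q)) z w (I • u) -
    fderiv ℝ (fderiv ℝ (rc q)) z u (I • w))) * I_mul_I

theorem Wq_eq (q : Fin p → E n → ℝ) : Wq p q = WB p fun l => dcq (q l) := by
  induction p with
  | zero => rfl
  | succ p ih =>
    rw [Wq, WB, ih]
    rfl

theorem wqS : WqS := by
  intro n p q hq
  choose D hD using hq
  have hs : ∀ l, ∀ z ≠ 0, ContDiffAt ℝ ∞ (dcq (q l)) z := fun l z hz =>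
    dcq_smooth ((hD l).contDiffAt hz)
  rw [Wq_eq]
  refine ⟨⟨smooth_of_at fun z hz => WB_smooth fun l => hs l z hz,
    WB_inv hs fun l => dcq_inv (hD l), fun z hz v j ⟨c, hc⟩ => ?_⟩, fun x hx => ?_⟩
  · rw [← ofReal_eq_zero, WB_apply fun l => hs l z hz,
      FW_congr (C := fun l u w => I / Real.pi * sq (hess (q l) z) u w) fun l u w => by
        rw [dcq_anti ((hD l).contDiffAt hz), mul_sub]]
    refine FW_ker (fun l w => ?_) ⟨j, hc⟩
    have h := LHb_rad (LHb_rc (hD l) hz) ((hD l).radial hz)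
    have h1 := h 0 w c 0
    have h2 := h w 0 0 c
    simp only [zero_add, zero_smul, add_zero] at h1 h2
    simp only [sq_hess ((hD l).contDiffAt2 hz), h1, h2]
    simp only [← sq_hess ((hD l).contDiffAt2 hz)]
    simp [sq]
  · have h := FW_sq (fun l => hess (q l) x.1) (fun l => dcq_anti ((hD l).contDiffAt hx)) x.2
    rw [← WB_apply fun l => hs l _ hx, ← cx_il, ← ofReal_mul] at h
    simp only [lv_eq_gl, gl_eq_rs ((hD _).contDiffAt2 hx)]
    rw [← h, ofReal_re, fv]

theorem fw2_comp {X Y : Type} (φ : Y → X) (B : X → X → ℂ) (g : (Fin m → X) → ℂ)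
    (y : Fin (m + 1 + 1) → Y) : fw2 B g (fun j => φ (y j)) =
      fw2 (fun u w => B (φ u) (φ w)) (fun x => g fun j => φ (x j)) y := rfl

/-- The matrix of the form `∂ a ∧ ∂bar b`. -/
noncomputable def gm (a b : E n → ℝ) (z : E n) : Mat n :=
  Matrix.of fun i j => gd (ev i) (rc a) z * gb (ev j) (rc b) z

theorem sq_gm (a b : E n → ℝ) (z u w : E n) :
    sq (gm a b z) u w = gd u (rc a) z * gb w (rc b) z := by
  rw [← wd_eq_gd, ← wb_eq_gb, wd_vec, wb_vec, sum_mul_sum]
  exact sum_congr rfl fun _ _ => sum_congr rfl fun _ _ => by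
    simp only [gm, Matrix.of_apply, wd_eq_gd, wb_eq_gb]; ring

theorem sq_lin (s t : ℂ) (H K : Mat n) (u w : E n) :
    sq (s • H + t • K) u w = s * sq H u w + t * sq K u w := by
  simp only [sq, mul_sum, ← sum_add_distrib, Matrix.add_apply, Matrix.smul_apply, smul_eq_mul]
  exact sum_congr rfl fun _ _ => sum_congr rfl fun _ _ => by ring

theorem fd_smul {β : E n → E n →L[ℝ] ℝ} (ha : DifferentiableAt ℝ a z)
    (hβ : DifferentiableAt ℝ β z) (u w : E n) : fderiv ℝ (fun y => a y • β y) z u w =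
      a z * fderiv ℝ β z u w + fderiv ℝ a z u * β z w := by
  rw [fderiv_fun_smul ha hβ]
  simp

/-- The product with an arbitrary first factor: only its part of bidegree `(1, 1)` counts. -/
theorem WB_cons {β : E n → E n →L[ℝ] ℝ} {q : Fin p → E n → ℝ} (hβ : ContDiffAt ℝ ∞ β z)
    (hq : ∀ l, ContDiffAt ℝ ∞ (q l) z) (H : Mat n)
    (h : ∀ u w, ((fderiv ℝ β z u w : ℂ) - fderiv ℝ β z w u +
      (fderiv ℝ β z (I • u) (I • w) - fderiv ℝ β z (I • w) (I • u))) / 2 =
        I / Real.pi * (sq H u w - sq H w u)) (v : Fin (p + 1) → E n) :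
    (kap (p + 1) * extDeriv (fun w => w1L n (2 * p) (β w) (Wq p q w)) z
      (cx (r := 2 * (p + 1)) (ext v)) : ℝ) =
      mdC (Fin.cons (rs H v) fun l => rs (hess (q l) z) v : Fin (p + 1) → Mat (p + 1)) := by
  have hs : ∀ l, ContDiffAt ℝ ∞ (dcq (q l)) z := fun l => dcq_smooth (hq l)
  have h5 := FW_sq (B := (Fin.cons (fun u w => I / Real.pi * sq H u w)
    fun l u w => I / Real.pi * sq (hess (q l) z) u w : Fin (p + 1) → E n → E n → ℂ))
    (Fin.cons H fun l => hess (q l) z)
    (Fin.cases (fun u w => (mul_sub _ _ _).symm) fun l u w => (mul_sub _ _ _).symm) v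
  rw [FW, Fin.cons_zero, Fin.tail_cons] at h5
  have hG : ∀ y : Fin (2 * p) → E n,
      FW p (fun l u w => I / Real.pi * sq (hess (q l) z) u w) (fun j => I • y j) =
        FW p (fun l u w => I / Real.pi * sq (hess (q l) z) u w) y := fun y => by
    rw [FW_comp (fun u : E n => I • u)]
    simp only [sq_I]
  have h1 := extDeriv_w1 (hβ.differentiableAt (by simp))
    ((WB_smooth hs).differentiableAt (by simp)) (WB_closed hs)
  rw [funext (WB_apply hs), FW_congr (C := fun l u w => I / Real.pi * sq (hess (q l) z) u w)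
    fun l u w => by rw [dcq_anti (hq l), mul_sub]] at h1
  rw [Wq_eq]
  generalize FW p (fun l u w => I / Real.pi * sq (hess (q l) z) u w) = G at h5 hG h1
  generalize extDeriv (fun w => w1L n (2 * p) (β w) (WB p (fun l => dcq (q l)) w)) z = f at h1
  have h4 : (fun j => I • il v (I • v) j) = il (I • v) (-v) := funext fun j => by
    rw [il_map (fun u : E n => I • u)]
    simp only [Pi.smul_apply, smul_smul, I_mul_I, neg_smul, one_smul]
    rfl
  have h2 : fw2 (fun u w => (fderiv ℝ β z (I • u) (I • w) : ℂ)) G (il v (I • v)) =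
      f (il v (I • v)) := by
    rw [← alt_il (p := p + 1) f, h1, ← h4]
    refine Eq.trans ?_ (fw2_comp (fun u : E n => I • u) _ G (il v (I • v))).symm
    rw [funext hG]
  have h6 : fw2 (fun u w => I / Real.pi * sq H u w) G = fw2 (fun u w => 2⁻¹ *
      ((fderiv ℝ β z u w : ℂ) + fderiv ℝ β z (I • u) (I • w))) G :=
    fw2_congr (fun u w => by linear_combination -h u w) G
  rw [h6, fw2_mul, fw2_add, h2, ← h1] at h5
  rw [cx_il, ofReal_mul]
  refine Eq.trans (by ring) (h5.trans (congrArg mdC (funext (Fin.cases rfl fun _ => rfl))))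

theorem update_perm {α : Type} (A : Fin (p + 1) → α) (l : Fin (p + 1)) (M : α) :
    ∃ τ : Equiv.Perm (Fin (p + 1)),
      Function.update A l M ∘ τ = Fin.cons M fun j => A (l.succAbove j) := by
  obtain ⟨τ, h⟩ := cons_succAbove_perm (Function.update A l M) l
  refine ⟨τ, h.trans ?_⟩
  simp only [Function.update_self, Function.update_of_ne (l.succAbove_ne _)]

theorem convS : ConvS := by
  intro n p a b q l ha hb hq
  have hq' : Pots fun j => q (l.succAbove j) := fun j => hq _
  have hW := (wqS n p _ hq').1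
  have s1 : ∀ z ≠ 0, ContDiffAt ℝ ∞ (fun w => a w • dcq b w) z := fun z hz =>
    (ha.contDiffAt hz).smul (dcq_smooth (hb.contDiffAt hz))
  have s2 : ∀ z ≠ 0, ContDiffAt ℝ ∞ (fun w => ((2 * Real.pi)⁻¹ * a w) • fderiv ℝ b w) z :=
    fun z hz => (contDiffAt_const.mul (ha.contDiffAt hz)).smul
      ((hb.contDiffAt hz).fderiv_right le_rfl)
  refine ⟨_, _, hW.w1 s1 (fun c hc z hz v => ?_) (fun z hz c => ?_),
    hW.w1 s2 (fun c hc z hz v => ?_) (fun z hz c => ?_), fun ⟨z, v⟩ hz => ?_⟩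
  · simp only [_root_.smul_apply, dcq_inv hb c hc z hz, ha.inv0 c hc z hz]
  · simp only [_root_.smul_apply, dcq_apply, smul_smul, fd_rad hb hz, mul_zero, smul_zero]
  · simp only [_root_.smul_apply, fd_scl_lh hb hc hz, ha.inv0 c hc z hz]
  · simp only [_root_.smul_apply, fd_rad hb hz, smul_zero]
  have hpi : (Real.pi : ℂ) ≠ 0 := ofReal_ne_zero.2 Real.pi_ne_zero
  have hs : ∀ j, ContDiffAt ℝ ∞ (q (l.succAbove j)) z := fun j =>
    (hq' j).choose_spec.contDiffAt hz
  have da := (ha.contDiffAt hz).differentiableAt (by simp)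
  have eI : ∀ (L : E n →L[ℝ] ℝ) (u : E n), L (I • I • u) = -L u := fun L u => by
    rw [smul_smul, I_mul_I, neg_smul, one_smul, map_neg]
  have e1 := WB_cons (s1 z hz) hs ((1 : ℂ) • ((2⁻¹ : ℂ) • gm a b z + (2⁻¹ : ℂ) • gm b a z) +
    (a z : ℂ) • hess b z) (fun u w => by
      have h1 := dcq_anti (hb.contDiffAt hz) u w
      have h2 := dcq_anti (hb.contDiffAt hz) (I • u) (I • w)
      rw [sq_I, sq_I] at h2
      simp only [fd_smul da ((dcq_smooth (hb.contDiffAt hz)).differentiableAt (by simp)), sq_lin,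
        sq_gm, dcq_apply, eI, gd, gb, GW2_ofReal]
      push_cast
      field_simp at h1 h2 ⊢
      linear_combination 4 * (a z : ℂ) * h1 + 4 * (a z : ℂ) * h2 +
        2 * ((fderiv ℝ a z w : ℂ) * fderiv ℝ b z (I • u) - fderiv ℝ a z u * fderiv ℝ b z (I • w) +
          fderiv ℝ a z (I • u) * fderiv ℝ b z w - fderiv ℝ a z (I • w) * fderiv ℝ b z u) *
          I_mul_I) v
  have e2 := WB_cons (s2 z hz) hs ((-I / 2) • gm a b z + (I / 2) • gm b a z) (fun u w => by
      have h1 := ((hb.contDiffAt2 hz).isSymmSndFDerivAt (by simp)).eq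
      simp only [fd_smul (da.const_mul _) (((hb.contDiffAt hz).fderiv_right (m := ∞)
        le_rfl).differentiableAt (by simp)), sq_lin, sq_gm, gd, gb, GW2_ofReal,
        fderiv_const_mul da, _root_.smul_apply, smul_eq_mul, h1 w u, h1 (I • w) (I • u)]
      push_cast
      field_simp
      ring_nf
      simp only [I_sq, I_pow_four]
      ring) v
  obtain ⟨τ, hτ⟩ := update_perm (fun l' => lv (q l') (z, v)) l
    (gr a b (z, v) + (a z : ℂ) • lv b (z, v))
  refine ((mdC_perm _ τ).symm.trans (congrArg mdC hτ)).trans ?_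
  refine Eq.trans ?_ (congrArg₂ (fun s t => s + I * t) e1 e2).symm
  simp only [lv_eq_gl, gl_eq_rs ((hs _).of_le GW2_two), gl_eq_rs (hb.contDiffAt2 hz)]
  have e : ∀ M : Mat (p + 1), (Fin.cons M fun j => rs (hess (q (l.succAbove j)) z) v :
      Fin (p + 1) → Mat (p + 1)) = Function.update
        (Fin.cons 0 fun j => rs (hess (q (l.succAbove j)) z) v : Fin (p + 1) → Mat (p + 1)) 0 M :=
    fun M => (Fin.update_cons_zero ..).symm
  rw [e, e (rs _ v), e (rs (_ + _) v), ← mdC_update_smul, ← mdC_update_add]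
  refine congrArg (fun M => mdC (Function.update _ 0 M)) (Matrix.ext fun i j => ?_)
  change gd (v i) (rc a) z * gb (v j) (rc b) z + a z * sq _ (v i) (v j) =
    sq _ (v i) (v j) + I * sq _ (v i) (v j)
  simp only [sq_lin, sq_gm]
  linear_combination ((gd (v i) (rc a) z * gb (v j) (rc b) z -
    gd (v i) (rc b) z * gb (v j) (rc a) z) / 2) * I_mul_I

end Pool.Agent.Lib.MP_a47f92_an.L
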