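import Pool.Agent.Lib.MP_a47f92_an.L.Asm
import Pool.Agent.Lib.MP_a47f92_an.L.Ext
import Pool.Agent.Lib.MP_a47f92_an.L.Rep
import Pool.Agent.Lib.MP_a47f92_an.L.SpanHard
import Pool.Agent.Lib.MP_a47f92_an.L.WdgC

set_option autoImplicit false

namespace Pool.Agent.Lib.MP_a47f92_an.L

theorem mainS : MainS := mainS_of wqS extS convS spanS hardS (repS wqS spanS)

end Pool.Agent.Lib.MP_a47f92_an.L
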