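import Pool.Agent.Lib.MP_a47f92_an.L.Bas

set_option autoImplicit false

/-! The current attached to a measure on frames. -/

namespace Pool.Agent.Lib.MP_a47f92_an.L

open MeasureTheory Filter Topology Set Complex
open scoped ContDiff

variable {n p d : ℕ} {S : Measure (Fr n p)} {φ : Fm n (2 * p)} {T : Cur n (2 * p)}
  {F : E n → E n} {D : Set (E n)} {a : E n → ℝ} {q : Fin p → E n → ℝ}

theorem int_fv (hS : SpanS) (h : IsCur S) (hφ : Basic φ) : Integrable (fv φ) S := by
  obtain ⟨ι, _, q, lam, h1, -, h3⟩ := hS n p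
  obtain ⟨h4, h5⟩ := h3 φ hφ
  have h6 := (integrable_finsetSum Finset.univ fun i _ =>
    h.int_mul_dn (h4 i).bm (h1 i)).const_mul (kap p)⁻¹
  refine h6.congr (h.ne.mono fun x hx => ?_)
  simp only [dn, if_neg hx, dc]
  rw [← h5 x hx, inv_mul_cancel_left₀ (kap_pos p).ne']

/-- `T` is the current attached to `S`. -/
def Rp (S : Measure (Fr n p)) (T : Cur n (2 * p)) : Prop :=
  ∀ φ, Basic φ → T φ = kap p * ∫ x, fv φ x ∂S

theorem exists_rp (hS : SpanS) (h : IsCur S) : ∃ T, Rp S T := by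
  let L : bas n (2 * p) →ₗ[ℝ] ℝ :=
    { toFun := fun φ => kap p * ∫ x, fv φ.1 x ∂S
      map_add' := fun φ ψ => by
        rw [← mul_add, ← integral_add (int_fv hS h φ.2) (int_fv hS h ψ.2)]
        rfl
      map_smul' := fun c φ => by
        rw [RingHom.id_apply, smul_eq_mul, mul_left_comm, ← integral_const_mul c]
        rfl }
  obtain ⟨T, hT⟩ := L.exists_extend
  exact ⟨T, fun φ hφ => LinearMap.congr_fun hT ⟨φ, hφ⟩⟩

theorem int_pull (hW : WqS) (h : IsCur S) (hF : IsLift d F) (a : E n → ℝ) (hq : Pots q) :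
    kap p * ∫ x, fv (fun z => a z • pull F (Wq p q) z) x ∂S = pr S a fun l z => q l (F z) := by
  rw [pr, ← integral_const_mul]
  refine integral_congr_ae (h.ne.mono fun x hx => ?_)
  simp only
  rw [fv_fsmul, fv_pull hF, mul_left_comm, (hW n p q hq).2 (fw F x) (hF.ne hx),
    Tst_lv_fw hq hF hx]

theorem int_W (hW : WqS) (h : IsCur S) (a : E n → ℝ) (hq : Pots q) :
    kap p * ∫ x, fv (fun z => a z • Wq p q z) x ∂S = pr S a q := by
  rw [pr, ← integral_const_mul]
  refine integral_congr_ae (h.ne.mono fun x hx => ?_)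
  simp only
  rw [fv_fsmul, mul_left_comm, (hW n p q hq).2 x hx]

theorem fs_one : (fs p : Fm n (2 * p)) = fun z => (fun _ => (1 : ℝ)) z • Wq p (fun _ => lg) z := by
  rw [fs_eq]
  exact funext fun z => (one_smul _ _).symm

theorem Rp.pos (h : Rp S T) (hS : IsCur S) : Pos T := fun φ hφ h0 => by
  rw [h φ hφ]
  exact mul_nonneg (kap_pos p).le (integral_nonneg_of_ae (hS.ne.mono fun x hx => h0 _ hx _))

theorem Rp.closed (hE : ExtS) (hH : HardS) : ∀ {p : ℕ} {S : Measure (Fr n p)} {T : Cur n (2 * p)},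
    Rp S T → IsCur S → MP_a47f92_an.Closed S → Closed T
  | 0, _, _, _, _, _ => trivial
  | p + 1, S, T, h, h1, h2 => fun η hη => by
    rw [h _ (hE _ _ η hη), hH n p S h1 h2 η hη, mul_zero]

theorem Rp.cl (hW : WqS) (hE : ExtS) (hH : HardS) (h : Rp S T) (hS : InC D S) : Cl D T := by
  obtain ⟨K, k1, k2, k3, k4⟩ := hS.supp
  refine ⟨h.closed hE hH hS.cur hS.closed, ?_, K, k1, k2, k3, fun φ hφ hd => ?_⟩
  · rw [fs_one, h _ ((hW n p _ pots_lg).1.fsmul (lh_const 1)), int_W hW hS.cur _ pots_lg, hS.mass]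
  · rw [h φ hφ, integral_congr_ae (g := fun _ => 0), integral_zero, mul_zero]
    filter_upwards [k4, hS.cur.ne] with x h1 h2
    have h3 : φ x.1 = 0 := image_eq_zero_of_notMem_tsupport fun h4 =>
      disjoint_left.1 hd h4 ⟨h1, h2⟩
    rw [fv, h3]
    rfl

theorem cont_of_off {Y : Type} [TopologicalSpace Y] [Zero Y] {K : Set (E n)} (hK : IsClosed K)
    (h0 : 0 ∉ K) {f : E n → Y} (hf : ContinuousOn f {0}ᶜ) (hz : ∀ z, z ∉ K → f z = 0) :
    Continuous f := by
  refine continuous_iff_continuousAt.2 fun z => ?_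
  by_cases h : z = 0
  · refine (continuousAt_const (y := (0 : Y))).congr ?_
    filter_upwards [hK.isOpen_compl.mem_nhds (h ▸ h0 : z ∉ K)] with w hw using (hz w hw).symm
  · exact hf.continuousAt (isOpen_compl_singleton.mem_nhds h)

theorem cont_sum {A ι : Type} [NormedAddCommGroup A] [NormedSpace ℝ A] [Fintype ι] {U : Set (E n)}
    {g : ι → E n → ℝ} {lam : ι → E n → A →L[ℝ] ℝ} (h1 : ∀ i, ContinuousOn (g i) U)
    (h2 : ∀ i, ContinuousOn (lam i) U) : ContinuousOn (fun w => ∑ i, g i w • lam i w) U :=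
  continuousOn_finsetSum _ fun i _ => (h1 i).smul (h2 i)

theorem Rp.cont (hS : SpanS) (h : Rp S T) (h1 : IsCur S) (h2 : IsCont S) : Cont T := by
  obtain ⟨ι, _, q, lam, s1, s2, s3⟩ := hS n p
  obtain ⟨Φ, f1, f2⟩ := h2
  set K : Set (E n) := ⋃ I, ⋃ J, tsupport (Φ I J) with hK
  have k1 : IsCompact K := isCompact_iUnion fun I => isCompact_iUnion fun J => (f1 I J).2.1
  have k2 : 0 ∉ K := fun h => by
    obtain ⟨I, J, h⟩ := mem_iUnion₂.1 h
    exact (f1 I J).2.2 h
  set g : ι → E n → ℝ := fun i w => (∑ I, ∑ J, Φ I J w * ∏ l, hess (q i l) w (I l) (J l)).re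
    with hg
  have g1 : ∀ i, ContinuousOn (g i) {0}ᶜ := fun i =>
    continuous_re.comp_continuousOn (continuousOn_finsetSum _ fun I _ =>
      continuousOn_finsetSum _ fun J _ => (f1 I J).1.continuousOn.mul
        (continuousOn_finsetProd _ fun l _ => (s1 i l).elim fun _ hl =>
          (contDiffOn_hess isOpen_compl_singleton hl.1 _ _).continuousOn))
  have g2 : ∀ i w, w ∉ K → g i w = 0 := fun i w hw => by
    have : ∀ I J, Φ I J w = 0 := fun I J =>
      image_eq_zero_of_notMem_tsupport fun h => hw (mem_iUnion₂.2 ⟨I, J, h⟩)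
    simp only [hg, this, zero_mul, Finset.sum_const_zero, zero_re]
  have p0 : ∀ w, w ∉ K → ∑ i, g i w • lam i w = 0 := fun w hw => by
    simp only [g2 _ w hw, zero_smul, Finset.sum_const_zero]
  have p1 : tsupport (fun w => ∑ i, g i w • lam i w) ⊆ K :=
    closure_minimal (fun w hw => by_contra fun h => hw (p0 w h)) k1.isClosed
  refine ⟨fun w => ∑ i, g i w • lam i w, cont_of_off k1.isClosed k2
    (cont_sum (A := E n [⋀^Fin (2 * p)]→L[ℝ] ℝ) g1 s2) p0,
    k1.of_isClosed_subset (isClosed_tsupport _) p1, fun h => k2 (p1 h), fun φ hφ => ?_⟩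
  obtain ⟨s4, s5⟩ := s3 φ hφ
  have i1 : ∀ i, Integrable fun w => lam i w (φ w) * g i w := fun i =>
    (cont_of_off k1.isClosed k2 ((s4 i).1.continuousOn.mul (g1 i)) fun w hw => by
      simp only [Pi.mul_apply, g2 i w hw, mul_zero]).integrable_of_hasCompactSupport
      (HasCompactSupport.intro k1 fun w hw => by simp only [Pi.mul_apply, g2 i w hw, mul_zero])
  rw [h φ hφ, ← integral_const_mul, integral_congr_ae (h1.ne.mono fun x hx => s5 x hx),
    integral_finsetSum _ fun i _ => (h1.int_mul_dn (s4 i).bm (s1 i)).congr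
      (h1.ne.mono fun x hx => by simp only [dn, if_neg hx, dc])]
  simp only [sum_apply, smul_apply, smul_eq_mul, mul_comm (g _ _)]
  rw [integral_finsetSum _ fun i _ => i1 i]
  exact Finset.sum_congr rfl fun i _ => f2 _ (s4 i) _ (s1 i)

theorem Rp.pull (hW : WqS) (h : Rp S T) (hS : IsCur S) (hF : IsLift d F) (hd : 1 ≤ d)
    (ha : LH 0 a) (hq : Pots q) :
    T (pull F fun z => a z • Wq p q z) = pr (S.map (fw F)) a q := by
  rw [h _ (((hW n p q hq).1.fsmul ha).pull hF), hS.pr_map_fw hF hd ha.measurable hq,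
    ← int_pull hW hS hF _ hq]
  rfl

end Pool.Agent.Lib.MP_a47f92_an.L
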