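import Pool.Agent.Lib.MP_a47f92_an.L.Def
import Pool.Agent.Lib.MP_a47f92_an.G.WMain
import Pool.Agent.Lib.MP_a47f92_an.G.Lyap

set_option autoImplicit false

/-! The dictionary between currents and measures on frames: auxiliary notions and statements. -/

namespace Pool.Agent.Lib.MP_a47f92_an.L

open MeasureTheory Filter Topology Set Complex ContinuousAlternatingMap
open scoped ContDiff

variable {n r p : ℕ}

/-- Extension of a finite family by zero. -/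
noncomputable def ext (v : Fin p → E n) (j : ℕ) : E n := if h : j < p then v ⟨j, h⟩ else 0

/-- The value of a form on a complex frame. -/
noncomputable def fv (φ : Fm n (2 * p)) (x : Fr n p) : ℝ := φ x.1 (cx (ext x.2))

/-- The normalising constant. -/
noncomputable def kap (p : ℕ) : ℝ := (Real.pi / 2) ^ p

/-- The one-form `d^c q`. -/
noncomputable def dcq (q : E n → ℝ) (z : E n) : E n →L[ℝ] ℝ :=
  -(2 * Real.pi)⁻¹ • (fderiv ℝ q z).comp (I • ContinuousLinearMap.id ℝ (E n))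

/-- The form `d d^c q 0 ∧ … ∧ d d^c q (p - 1)`. -/
noncomputable def Wq : (p : ℕ) → (Fin p → E n → ℝ) → Fm n (2 * p)
  | 0, _ => fun _ => constOfIsEmpty ℝ (E n) (Fin 0) 1
  | p + 1, q => extDeriv fun z =>
      alternatizeUncurryFin ((dcq (q 0) z).smulRight (Wq p (Fin.tail q) z))

theorem fs_eq : ∀ p : ℕ, (fs p : Fm n (2 * p)) = Wq p fun _ => lg
  | 0 => rfl
  | p + 1 => by
    rw [fs, Wq, fs_eq p]
    rfl

theorem kap_pos (p : ℕ) : 0 < kap p := pow_pos (half_pos Real.pi_pos) p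

def ExtS : Prop := ∀ (n r : ℕ) (η : Fm n r), Basic η → Basic (extDeriv η)

def PullS : Prop := ∀ (n r d : ℕ) (F : E n → E n) (φ : Fm n r), IsLift d F → Basic φ →
  Basic (pull F φ)

def WqS : Prop := ∀ (n p : ℕ) (q : Fin p → E n → ℝ), Pots q → Basic (Wq p q) ∧
  ∀ x : Fr n p, x.1 ≠ 0 → kap p * fv (Wq p q) x = (mdC fun l => lv (q l) x).re

def ConvS : Prop := ∀ (n p : ℕ) (a b : E n → ℝ) (q : Fin (p + 1) → E n → ℝ) (l : Fin (p + 1)),
  LH 0 a → LH 0 b → Pots q → ∃ η₁ η₂ : Fm n (2 * p + 1), Basic η₁ ∧ Basic η₂ ∧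
    ∀ x : Fr n (p + 1), x.1 ≠ 0 →
      mdC (Function.update (fun l' => lv (q l') x) l (gr a b x + (a x.1 : ℂ) • lv b x)) =
        (kap (p + 1) * fv (p := p + 1) (extDeriv η₁) x : ℝ) +
          I * (kap (p + 1) * fv (p := p + 1) (extDeriv η₂) x : ℝ)

def SpanS : Prop := ∀ n p : ℕ, ∃ (ι : Type) (_ : Fintype ι) (q : ι → Fin p → E n → ℝ)
  (lam : ι → E n → (E n [⋀^Fin (2 * p)]→L[ℝ] ℝ) →L[ℝ] ℝ), (∀ i, Pots (q i)) ∧
    (∀ i, ContinuousOn (lam i) {0}ᶜ) ∧ ∀ φ : Fm n (2 * p), Basic φ →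
      (∀ i, LH 0 fun z => lam i z (φ z)) ∧ ∀ x : Fr n p, x.1 ≠ 0 →
        kap p * fv φ x = ∑ i, lam i x.1 (φ x.1) * (mdC fun l => lv (q i l) x).re

def HardS : Prop := ∀ (n p : ℕ) (S : Measure (Fr n (p + 1))), IsCur S →
  MP_a47f92_an.Closed S → ∀ η : Fm n (2 * p + 1), Basic η →
    ∫ x, fv (p := p + 1) (extDeriv η) x ∂S = 0

def RepS : Prop := ∀ (n p : ℕ) (D K : Set (E n)) (τ : Cur n (2 * p)), IsOpen D → IsCone D →
  IsClosed K → IsCone K → K \ {0} ⊆ D → Ord0 τ →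
  (∀ φ, Basic φ → Disjoint (tsupport φ) (K \ {0}) → τ φ = 0) →
  ∃ σ : Cu n p, IsCur σ.1 ∧ IsCur σ.2 ∧
    (∃ K', IsClosed K' ∧ IsCone K' ∧ K' \ {0} ⊆ D ∧ (∀ᵐ x ∂σ.1, x.1 ∈ K') ∧ ∀ᵐ x ∂σ.2, x.1 ∈ K') ∧
    ∀ φ, Basic φ → τ φ = kap p * (∫ x, fv φ x ∂σ.1 - ∫ x, fv φ x ∂σ.2)

end Pool.Agent.Lib.MP_a47f92_an.L
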