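import Pool.Agent.Lib.MP_a47f92_an.Def

set_option autoImplicit false

/-! Wedge products of forms of degree two, at the level of functions. -/

namespace Pool.Agent.Lib.MP_a47f92_an.L

open Complex Finset
open scoped Matrix

variable {X : Type} {m p : ℕ}

/-- Interleaving of two families. -/
def il (α β : Fin p → X) (j : Fin (2 * p)) : X :=
  if j.1 % 2 = 0 then α ⟨j / 2, by omega⟩ else β ⟨j / 2, by omega⟩

theorem il_succ (α β : Fin (p + 1) → X) :
    il α β = (Fin.cons (α 0) (Fin.cons (β 0) (il (Fin.tail α) (Fin.tail β))) :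
      Fin (2 * p + 1 + 1) → X) := by
  funext ⟨j, hj⟩
  match j, hj with
  | 0, _ => exact (if_pos rfl).trans (congrArg α (Fin.ext (Nat.zero_div 2)))
  | 1, _ => exact (if_neg one_ne_zero).trans (congrArg β (Fin.ext (by norm_num)))
  | j + 2, hj =>
    have h1 : (j + 2) % 2 = j % 2 := by omega
    have h2 : (j + 2) / 2 = j / 2 + 1 := by omega
    change _ = il (Fin.tail α) (Fin.tail β) ⟨j, by omega⟩
    simp only [il, h1, h2]
    rfl

theorem il_map {Y : Type} (g : X → Y) (α β : Fin p → X) (j : Fin (2 * p)) :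
    g (il α β j) = il (fun l => g (α l)) (fun l => g (β l)) j := by
  unfold il
  split_ifs <;> rfl

/-- The even and the odd places. -/
def ilE (p : ℕ) : Fin p ⊕ Fin p ≃ Fin (2 * p) where
  toFun := Sum.elim (fun j => ⟨2 * j, by omega⟩) fun j => ⟨2 * j + 1, by omega⟩
  invFun := il Sum.inl Sum.inr
  left_inv := by
    rintro (j | j)
    · simp [il]
    · have h : (2 * j.1 + 1) / 2 = j := by omega
      simp [il, h]
  right_inv j := by
    unfold il
    split_ifs with h
    · exact Fin.ext (by simp only [Sum.elim_inl]; omega)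
    · exact Fin.ext (by simp only [Sum.elim_inr]; omega)

theorem il_inl (α β : Fin p → X) (j : Fin p) : il α β (ilE p (.inl j)) = α j := by
  simp [il, ilE]

theorem il_inr (α β : Fin p → X) (j : Fin p) : il α β (ilE p (.inr j)) = β j := by
  have h : (2 * j.1 + 1) / 2 = j := by omega
  simp [il, ilE, h]

/-- The alternating sum over the places of a tuple. -/
noncomputable def fal (f : X → (Fin m → X) → ℂ) (x : Fin (m + 1) → X) : ℂ :=
  ∑ j : Fin (m + 1), (-1) ^ (j : ℕ) * f (x j) (j.removeNth x)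

/-- The product of a function of two variables and a function of `m` variables. -/
noncomputable def fw2 (B : X → X → ℂ) (g : (Fin m → X) → ℂ) : (Fin (m + 1 + 1) → X) → ℂ :=
  fal fun u => fal fun w y => B u w * g y

/-- The product of `p` functions of two variables. -/
noncomputable def FW : (p : ℕ) → (Fin p → X → X → ℂ) → (Fin (2 * p) → X) → ℂ
  | 0, _ => fun _ => 1
  | p + 1, B => fw2 (B 0) (FW p (Fin.tail B))

theorem fw2_add (B C : X → X → ℂ) (g : (Fin m → X) → ℂ) (x : Fin (m + 1 + 1) → X) :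
    fw2 (fun u w => B u w + C u w) g x = fw2 B g x + fw2 C g x := by
  simp only [fw2, fal, add_mul, mul_add, sum_add_distrib]

theorem fw2_mul (c : ℂ) (B : X → X → ℂ) (g : (Fin m → X) → ℂ) (x : Fin (m + 1 + 1) → X) :
    fw2 (fun u w => c * B u w) g x = c * fw2 B g x := by
  simp only [fw2, fal, mul_sum]
  exact sum_congr rfl fun _ _ => sum_congr rfl fun _ _ => by ring

theorem fal_swap (f : X → X → (Fin m → X) → ℂ) (x : Fin (m + 1 + 1) → X) :
    fal (fun u => fal fun w => f u w) x = -fal (fun w => fal fun u => f u w) x := by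
  simp only [fal, mul_sum, ← sum_neg_distrib, ← Fintype.sum_prod_type']
  have hi : Function.Involutive fun a : Fin (m + 1 + 1) × Fin (m + 1) =>
      (a.1.succAbove a.2, a.2.predAbove a.1) := fun a => by
    simp [Fin.succAbove_succAbove_predAbove, Fin.predAbove_predAbove_succAbove]
  refine Fintype.sum_equiv hi.toPerm _ _ fun a => ?_
  have h := Fin.neg_one_pow_succAbove_add_predAbove (R := ℂ) a.1 a.2
  rw [pow_add, pow_add] at h
  simp only [Function.Involutive.coe_toPerm, ← Fin.removeNth_removeNth_eq_swap]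
  simp only [Fin.removeNth, Fin.succAbove_succAbove_predAbove]
  rw [← mul_assoc, ← mul_assoc, h]
  ring

theorem fw2_swap (B : X → X → ℂ) (g : (Fin m → X) → ℂ) (x : Fin (m + 1 + 1) → X) :
    fw2 (fun u w => B w u) g x = -fw2 B g x :=
  fal_swap (fun u w y => B w u * g y) x

theorem fw2_congr {B C : X → X → ℂ} (h : ∀ u w, B u w - B w u = C u w - C w u)
    (g : (Fin m → X) → ℂ) : fw2 B g = fw2 C g := by
  funext x
  have e : (fun u w => B u w + C w u) = fun u w => C u w + B w u := by
    funext u w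
    linear_combination h u w
  have h1 := fw2_add B (fun u w => C w u) g x
  rw [e, fw2_add C (fun u w => B w u), fw2_swap B, fw2_swap C] at h1
  linear_combination (-1 / 2 : ℂ) * h1

theorem FW_congr {B C : Fin p → X → X → ℂ}
    (h : ∀ l u w, B l u w - B l w u = C l u w - C l w u) : FW p B = FW p C := by
  induction p with
  | zero => rfl
  | succ p ih =>
    rw [FW, FW, fw2_congr (h 0), ih (B := Fin.tail B) (C := Fin.tail C) fun l => h l.succ]

theorem FW_comp {Y : Type} (φ : Y → X) (B : Fin p → X → X → ℂ) (y : Fin (2 * p) → Y) :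
    FW p B (fun j => φ (y j)) = FW p (fun l u w => B l (φ u) (φ w)) y := by
  induction p with
  | zero => rfl
  | succ p ih =>
    simp only [FW, fw2, fal]
    refine sum_congr rfl fun i _ => congrArg _ (sum_congr rfl fun j _ => ?_)
    exact congrArg (fun t => _ * (_ * t)) (ih (Fin.tail B) (j.removeNth (i.removeNth y)))

/-- The product vanishes on a tuple with an entry in the kernel of all factors. -/
theorem FW_ker {B : Fin p → X → X → ℂ} {a : X} (h : ∀ l w, B l a w = 0 ∧ B l w a = 0)
    {x : Fin (2 * p) → X} (hx : ∃ k, x k = a) : FW p B x = 0 := by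
  induction p with
  | zero => obtain ⟨k, -⟩ := hx; exact absurd k.2 (by simp)
  | succ p ih =>
    obtain ⟨k, hk⟩ := hx
    simp only [FW, fw2, fal]
    refine sum_eq_zero fun i _ => mul_eq_zero_of_right _ (sum_eq_zero fun j _ =>
      mul_eq_zero_of_right _ ?_)
    rcases Fin.eq_self_or_eq_succAbove (n := 2 * p + 1) i k with rfl | ⟨k', rfl⟩
    · rw [hk, (h 0 _).1, zero_mul]
    rcases Fin.eq_self_or_eq_succAbove j k' with rfl | ⟨k'', rfl⟩
    · exact mul_eq_zero_of_left (by rw [Fin.removeNth, hk, (h 0 _).2]) _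
    · exact mul_eq_zero_of_right _ (ih (fun l => h l.succ) ⟨k'', hk⟩)

theorem fal_det (θ₀ : X → ℂ) (θ : Fin m → X → ℂ) (x : Fin (m + 1) → X) :
    (Matrix.of fun i j => (Fin.cons θ₀ θ : Fin (m + 1) → X → ℂ) i (x j)).det =
      fal (fun u y => θ₀ u * (Matrix.of fun i j => θ i (y j)).det) x := by
  rw [Matrix.det_succ_row_zero]
  exact sum_congr rfl fun j _ => mul_assoc _ _ _

theorem fw2_sum {κ ι : Type} [Fintype κ] [Fintype ι] (B : κ → X → X → ℂ)
    (g : ι → (Fin m → X) → ℂ) (x : Fin (m + 1 + 1) → X) :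
    fw2 (fun u w => ∑ k, B k u w) (fun y => ∑ i, g i y) x = ∑ k, ∑ i, fw2 (B k) (g i) x := by
  simp only [fw2, fal, sum_mul_sum]
  simp only [mul_sum]
  rw [sum_comm_cycle]
  exact sum_congr rfl fun _ _ => sum_comm_cycle

theorem fw2_det (θ₀ θ₁ : X → ℂ) (θ : Fin m → X → ℂ) (x : Fin (m + 1 + 1) → X) :
    fw2 (fun u w => θ₀ u * θ₁ w) (fun y => (Matrix.of fun i j => θ i (y j)).det) x =
      (Matrix.of fun i j => (Fin.cons θ₀ (Fin.cons θ₁ θ) : Fin (m + 1 + 1) → X → ℂ) i (x j)).det := by
  simp only [fal_det, fw2, fal, mul_sum]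
  exact sum_congr rfl fun _ _ => sum_congr rfl fun _ _ => by ring

theorem FW_det {κ : Type} [Fintype κ] (α β : Fin p → κ → X → ℂ) (x : Fin (2 * p) → X) :
    FW p (fun l u w => ∑ k, α l k u * β l k w) x = ∑ K : Fin p → κ,
      (Matrix.of fun i j => il (fun l => α l (K l)) (fun l => β l (K l)) i (x j)).det := by
  induction p with
  | zero => simp [FW]
  | succ p ih =>
    have e : FW p (Fin.tail fun (l : Fin (p + 1)) u w => ∑ k, α l k u * β l k w) = _ :=
      funext (ih (Fin.tail α) (Fin.tail β))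
    rw [← (Fin.consEquiv fun _ => κ).sum_comp, Fintype.sum_prod_type, FW, e]
    refine (fw2_sum (fun k u w => α 0 k u * β 0 k w) _ x).trans
      (sum_congr rfl fun k _ => sum_congr rfl fun K _ => (fw2_det _ _ _ x).trans ?_)
    rw [il_succ]
    rfl

theorem det_il (α β : Fin p → X → ℂ) (v v' : Fin p → X) (hα : ∀ l j, α l (v' j) = I * α l (v j))
    (hβ : ∀ l j, β l (v' j) = -I * β l (v j)) :
    (Matrix.of fun i j => il α β i (il v v' j)).det = (-2 * I) ^ p *
      ((Matrix.of fun j l => α l (v j)).det * (Matrix.of fun j l => β l (v j)).det) := by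
  rw [← Matrix.det_submatrix_equiv_self (ilE p)]
  have e : (Matrix.of fun i j => il α β i (il v v' j)).submatrix (ilE p) (ilE p) =
      Matrix.fromBlocks (Matrix.of fun j l => α l (v j))ᵀ 0 0 (Matrix.of fun j l => β l (v j))ᵀ *
        Matrix.fromBlocks 1 (I • 1) 1 (-I • 1) := by
    rw [Matrix.fromBlocks_multiply]
    ext (i | i) (j | j) <;> simp [il_inl, il_inr, hα, hβ]
  rw [e, Matrix.det_mul, Matrix.det_fromBlocks_zero₁₂, Matrix.det_fromBlocks_one₁₁,
    Matrix.det_transpose, Matrix.det_transpose, Matrix.one_mul, ← sub_smul, Matrix.det_smul,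
    Matrix.det_one, Fintype.card_fin]
  ring

theorem mdC_sum_rank {κ : Type} [Fintype κ] (a b : Fin p → κ → Fin p → ℂ) :
    mdC (fun l => Matrix.of fun i j => ∑ k, a l k i * b l k j) = ∑ K : Fin p → κ,
      (Matrix.of fun j l => a l (K l) j).det * (Matrix.of fun j l => b l (K l) j).det := by
  simp only [mdC, Matrix.of_apply, Matrix.det_apply', Fintype.prod_sum, mul_sum, sum_mul,
    prod_mul_distrib]
  rw [sum_comm_cycle]
  refine sum_congr rfl fun K _ => sum_comm.trans ?_
  exact sum_congr rfl fun _ _ => sum_congr rfl fun _ _ => by ring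

theorem FW_il {κ : Type} [Fintype κ] {B : Fin p → X → X → ℂ} (α β : Fin p → κ → X → ℂ)
    (h : ∀ l u w, B l u w - B l w u = ∑ k, α l k u * β l k w - ∑ k, α l k w * β l k u)
    (v v' : Fin p → X) (hα : ∀ l k j, α l k (v' j) = I * α l k (v j))
    (hβ : ∀ l k j, β l k (v' j) = -I * β l k (v j)) :
    FW p B (il v v') = (-2 * I) ^ p *
      mdC fun l => Matrix.of fun i j => ∑ k, α l k (v i) * β l k (v j) := by
  rw [FW_congr (C := fun l u w => ∑ k, α l k u * β l k w) h, FW_det, mdC_sum_rank, mul_sum]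
  exact sum_congr rfl fun K _ => det_il _ _ v v' (fun l => hα l _) fun l => hβ l _

end Pool.Agent.Lib.MP_a47f92_an.L
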