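import Pool.Agent.Lib.MP_a47f92_an.L.Wdg
import Pool.Agent.Lib.MP_a47f92_an.L.Skel

set_option autoImplicit false

/-! Products of exact forms of degree two. -/

namespace Pool.Agent.Lib.MP_a47f92_an.L

open Complex Finset Filter Topology ContinuousAlternatingMap
open scoped ContDiff ComplexConjugate

variable {n m p : ℕ} {z : E n}

/-- The product of a form of degree one and a form of degree `m`, as a bilinear map. -/
noncomputable def w1L (n m : ℕ) : (E n →L[ℝ] ℝ) →L[ℝ] (E n [⋀^Fin m]→L[ℝ] ℝ) →L[ℝ]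
    E n [⋀^Fin (m + 1)]→L[ℝ] ℝ :=
  (ContinuousLinearMap.compL ℝ _ _ _ (alternatizeUncurryFinCLM ℝ (E n) ℝ)).comp
    (ContinuousLinearMap.smulRightL ℝ (E n) (E n [⋀^Fin m]→L[ℝ] ℝ))

theorem w1L_eq (β : E n →L[ℝ] ℝ) (γ : E n [⋀^Fin m]→L[ℝ] ℝ) :
    w1L n m β γ = alternatizeUncurryFin (β.smulRight γ) := rfl

theorem w1L_apply (β : E n →L[ℝ] ℝ) (γ : E n [⋀^Fin m]→L[ℝ] ℝ) (x : Fin (m + 1) → E n) :
    w1L n m β γ x = ∑ j : Fin (m + 1), (-1) ^ (j : ℕ) * (β (x j) * γ (j.removeNth x)) := by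
  simp [w1L_eq, alternatizeUncurryFin_apply]

theorem contDiffAt_extDeriv {ψ : E n → E n [⋀^Fin m]→L[ℝ] ℝ} (h : ContDiffAt ℝ ∞ ψ z) :
    ContDiffAt ℝ ∞ (extDeriv ψ) z :=
  (alternatizeUncurryFinCLM ℝ (E n) ℝ).contDiff.contDiffAt.comp z (h.fderiv_right le_rfl)

theorem contDiffAt_w1 {β : E n → E n →L[ℝ] ℝ} {γ : E n → E n [⋀^Fin m]→L[ℝ] ℝ}
    (hβ : ContDiffAt ℝ ∞ β z) (hγ : ContDiffAt ℝ ∞ γ z) :
    ContDiffAt ℝ ∞ (fun w => w1L n m (β w) (γ w)) z :=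
  (w1L n m).isBoundedBilinearMap.contDiff.contDiffAt.comp z (hβ.prodMk hγ)

/-- The Leibniz rule for a closed second factor. -/
theorem extDeriv_w1 {β : E n → E n →L[ℝ] ℝ} {γ : E n → E n [⋀^Fin m]→L[ℝ] ℝ}
    (hβ : DifferentiableAt ℝ β z) (hγ : DifferentiableAt ℝ γ z) (hc : extDeriv γ z = 0)
    (x : Fin (m + 1 + 1) → E n) :
    (extDeriv (fun w => w1L n m (β w) (γ w)) z x : ℂ) =
      fw2 (fun u w => fderiv ℝ β z u w) (fun y => γ z y) x := by
  have h1 : ∀ u, fderiv ℝ (fun w => w1L n m (β w) (γ w)) z u =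
      w1L n m (fderiv ℝ β z u) (γ z) + w1L n m (β z) (fderiv ℝ γ z u) := fun u => by
    rw [((w1L n m).hasFDerivAt_of_bilinear hβ.hasFDerivAt hγ.hasFDerivAt).fderiv]
    simp [add_comm]
  have h2 : ∀ y : Fin (m + 1) → E n, fal (fun u y => (fderiv ℝ γ z u y : ℂ)) y = 0 := fun y => by
    have := congrArg (fun f : E n [⋀^Fin (m + 1)]→L[ℝ] ℝ => (f y : ℂ)) hc
    simpa [extDeriv, alternatizeUncurryFin_apply, fal] using this
  have h3 : fal (fun u => fal fun w y => (β z w : ℂ) * fderiv ℝ γ z u y) x = 0 := by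
    rw [fal_swap, neg_eq_zero]
    refine sum_eq_zero fun j _ => mul_eq_zero_of_right _ ?_
    rw [← mul_zero (β z (x j) : ℂ), ← h2 (j.removeNth x)]
    simp only [fal, mul_sum]
    exact sum_congr rfl fun _ _ => by ring
  rw [← add_zero (fw2 _ _ x), ← h3]
  simp [extDeriv, alternatizeUncurryFin_apply, h1, w1L_apply, fw2, fal, sum_add_distrib]

/-- The product of the exterior derivatives of the forms `β l` of degree one. -/
noncomputable def WB : (p : ℕ) → (Fin p → E n → E n →L[ℝ] ℝ) → E n → E n [⋀^Fin (2 * p)]→L[ℝ] ℝ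
  | 0, _ => fun _ => constOfIsEmpty ℝ (E n) (Fin 0) 1
  | p + 1, β => extDeriv fun w => w1L n (2 * p) (β 0 w) (WB p (Fin.tail β) w)

theorem WB_smooth {β : Fin p → E n → E n →L[ℝ] ℝ} (h : ∀ l, ContDiffAt ℝ ∞ (β l) z) :
    ContDiffAt ℝ ∞ (WB p β) z := by
  induction p with
  | zero => exact contDiffAt_const
  | succ p ih => exact contDiffAt_extDeriv (contDiffAt_w1 (h 0) (ih fun l => h l.succ))

theorem WB_closed {β : Fin p → E n → E n →L[ℝ] ℝ} (h : ∀ l, ContDiffAt ℝ ∞ (β l) z) :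
    extDeriv (WB p β) z = 0 := by
  cases p with
  | zero => simp [WB, extDeriv, ← alternatizeUncurryFinCLM_apply]
  | succ p =>
    exact extDeriv_extDeriv_apply (contDiffAt_w1 (h 0) (WB_smooth fun l => h l.succ))
      (by rw [minSmoothness_of_isRCLikeNormedField]; exact GW2_two)

theorem WB_apply {β : Fin p → E n → E n →L[ℝ] ℝ} (h : ∀ l, ContDiffAt ℝ ∞ (β l) z)
    (x : Fin (2 * p) → E n) :
    (WB p β z x : ℂ) = FW p (fun l u w => fderiv ℝ (β l) z u w) x := by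
  induction p with
  | zero => simp [WB, FW]
  | succ p ih =>
    have h' : ∀ l, ContDiffAt ℝ ∞ (Fin.tail β l) z := fun l => h l.succ
    refine (extDeriv_w1 ((h 0).differentiableAt (by simp))
      ((WB_smooth h').differentiableAt (by simp)) (WB_closed h') x).trans ?_
    rw [funext (ih h')]
    rfl

theorem nh0 (hz : z ≠ 0) : ({0}ᶜ : Set (E n)) ∈ 𝓝 z := isOpen_compl_singleton.mem_nhds hz

theorem smooth_of_at {Y : Type} [NormedAddCommGroup Y] [NormedSpace ℝ Y] {f : E n → Y}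
    (h : ∀ z ≠ 0, ContDiffAt ℝ ∞ f z) : ContDiffOn ℝ ∞ f {0}ᶜ :=
  fun z hz => (h z hz).contDiffWithinAt

theorem fd_scl {Y : Type} [NormedAddCommGroup Y] [NormedSpace ℝ Y] {f g : E n → Y} {c : ℂ}
    (hf : DifferentiableAt ℝ f (c • z)) (h : ∀ w ≠ 0, f (c • w) = g w) (hz : z ≠ 0) (u : E n) :
    fderiv ℝ f (c • z) (c • u) = fderiv ℝ g z u := by
  have e : (fun w => f (c • w)) =ᶠ[𝓝 z] g := mem_of_superset (nh0 hz) h
  rw [← e.fderiv_eq]
  exact (congrArg (fun T : E n →L[ℝ] Y => T u)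
    (hf.hasFDerivAt.comp z ((hasFDerivAt_id (𝕜 := ℝ) z).const_smul c)).fderiv).symm

/-- Invariance under the action of nonzero scalars. -/
def InvF (φ : Fm n m) : Prop := ∀ c : ℂ, c ≠ 0 → ∀ z ≠ 0, ∀ v, φ (c • z) (c • v) = φ z v

theorem InvF.extDeriv {φ : Fm n m} (h : InvF φ) (hs : ∀ z ≠ 0, ContDiffAt ℝ ∞ φ z) :
    InvF (extDeriv φ) := fun c hc z hz v => by
  have h1 := (hs _ (smul_ne_zero hc hz)).differentiableAt (by simp)
  rw [extDeriv_apply h1, extDeriv_apply ((hs z hz).differentiableAt (by simp))]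
  refine sum_congr rfl fun i _ => congrArg _ ?_
  exact fd_scl (h1.continuousAlternatingMap_apply fun _ => differentiableAt_const _)
    (fun w hw => h c hc w hw (i.removeNth v)) hz (v i)

theorem InvF.w1 {β : E n → E n →L[ℝ] ℝ} {φ : Fm n m} (h : InvF φ)
    (hβ : ∀ c : ℂ, c ≠ 0 → ∀ z ≠ 0, ∀ v, β (c • z) (c • v) = β z v) :
    InvF fun w => w1L n m (β w) (φ w) := fun c hc z hz v => by
  simp only [w1L_apply]
  exact sum_congr rfl fun i _ => congrArg _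
    (congrArg₂ _ (hβ c hc z hz (v i)) (h c hc z hz (i.removeNth v)))

theorem WB_inv {β : Fin p → E n → E n →L[ℝ] ℝ} (h : ∀ l, ∀ z ≠ 0, ContDiffAt ℝ ∞ (β l) z)
    (hβ : ∀ l (c : ℂ), c ≠ 0 → ∀ z ≠ 0, ∀ v, β l (c • z) (c • v) = β l z v) : InvF (WB p β) := by
  induction p with
  | zero => exact fun _ _ _ _ _ => rfl
  | succ p ih =>
    exact ((ih (fun l => h l.succ) fun l => hβ l.succ).w1 (hβ 0)).extDeriv fun z hz =>
      contDiffAt_w1 (h 0 z hz) (WB_smooth fun l => h l.succ z hz)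

theorem Basic.w1 {β : E n → E n →L[ℝ] ℝ} {φ : Fm n m} (h : Basic φ)
    (hs : ∀ z ≠ 0, ContDiffAt ℝ ∞ β z)
    (hβ : ∀ c : ℂ, c ≠ 0 → ∀ z ≠ 0, ∀ v, β (c • z) (c • v) = β z v)
    (h0 : ∀ z ≠ 0, ∀ c : ℂ, β z (c • z) = 0) : Basic fun w => w1L n m (β w) (φ w) := by
  refine ⟨smooth_of_at fun z hz => contDiffAt_w1 (hs z hz) (h.smooth.contDiffAt (nh0 hz)),
    InvF.w1 h.inv hβ, fun z hz v j ⟨c, hc⟩ => ?_⟩
  rw [w1L_apply]
  refine sum_eq_zero fun i _ => mul_eq_zero_of_right _ ?_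
  rcases Fin.eq_self_or_eq_succAbove i j with rfl | ⟨k, rfl⟩
  · rw [hc, h0 z hz, zero_mul]
  · exact mul_eq_zero_of_right _ (h.hor z hz _ k ⟨c, hc⟩)

end Pool.Agent.Lib.MP_a47f92_an.L
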